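import Pool.Agent.Helper27.SqSpec

/-!
# Module F1 of MP_a03157_co
-/

namespace Pool.Agent.Helper64.Sq

open Pool.Agent.Helper27.Sq IntermediateField

theorem specF1 : SpecF1 := by
  intro N hN c hc l hl
  have hN' : N ≠ 0 := hN.ne'
  set ζ : ℂ := Complex.exp (2 * Real.pi * Complex.I / N) with hζ
  have hprim : IsPrimitiveRoot ζ N := Complex.isPrimitiveRoot_exp N hN'
  have hpc : IsPrimitiveRoot (ζ ^ c) N :=
    hprim.zpow_of_gcd_eq_one c (Int.isCoprime_iff_gcd_eq_one.mp hc)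
  have hint : IsIntegral ℚ ζ := (hprim.isIntegral hN).tower_top
  have hroot : (ζ ^ c) ∈ (minpoly ℚ ζ).aroots ℂ := by
    rw [← Polynomial.cyclotomic_eq_minpoly_rat hprim hN, Polynomial.mem_aroots]
    refine ⟨Polynomial.cyclotomic_ne_zero _ _, ?_⟩
    rw [Polynomial.aeval_def, Polynomial.eval₂_eq_eval_map, Polynomial.map_cyclotomic]
    exact hpc.isRoot_cyclotomic hN
  let σ : ℚ⟮ζ⟯ →ₐ[ℚ] ℂ := (algHomAdjoinIntegralEquiv ℚ hint).symm ⟨ζ ^ c, hroot⟩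
  have hσ : σ (AdjoinSimple.gen ℚ ζ) = ζ ^ c :=
    algHomAdjoinIntegralEquiv_symm_apply_gen ℚ hint ⟨ζ ^ c, hroot⟩
  -- a linear functional
  have hl' : (l : ℂ) ≠ 0 := by exact_mod_cast hl
  obtain ⟨φ, hφ⟩ : ∃ φ : Module.Dual ℚ⟮ζ⟯ ℂ, φ (l : ℂ) ≠ 0 := by
    by_contra hcon
    push Not at hcon
    exact hl' ((Module.forall_dual_apply_eq_zero_iff ℚ⟮ζ⟯ (l : ℂ)).mp hcon)
  let g : ℂ →ₗ[ℚ⟮ζ⟯] ℚ⟮ζ⟯ := (φ (l : ℂ))⁻¹ • φ
  have hg : g (l : ℂ) = 1 := by
    simp only [g, LinearMap.smul_apply, smul_eq_mul]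
    exact inv_mul_cancel₀ hφ
  let f : ℝ →+ ℝ :=
    { toFun := fun x => (σ (g (x : ℂ))).re
      map_zero' := by simp
      map_add' := by intro x y; simp }
  refine ⟨f, ?_, ?_⟩
  · change (σ (g (l : ℂ))).re = 1
    rw [hg, map_one, Complex.one_re]
  · intro j x
    -- the element `cos` of the field
    let z : ℚ⟮ζ⟯ := AdjoinSimple.gen ℚ ζ
    have hz : (z : ℂ) = ζ := AdjoinSimple.coe_gen ℚ ζ
    let q : ℚ⟮ζ⟯ := (z ^ j + z ^ (-j)) / 2
    have key : ∀ k : ℤ, ζ ^ k = Complex.exp ((2 * Real.pi * k / N : ℝ) * Complex.I) := by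
      intro k
      rw [hζ, ← Complex.exp_int_mul]
      congr 1
      push_cast
      ring
    have hcos : ∀ k : ℤ, (ζ ^ k + ζ ^ (-k)) / 2 = ((Real.cos (2 * Real.pi * k / N) : ℝ) : ℂ) := by
      intro k
      rw [key, key, Complex.ofReal_cos, Complex.cos]
      push_cast
      congr 3
      ring
    have hq : ((q : ℚ⟮ζ⟯) : ℂ) = ((Real.cos (2 * Real.pi * j / N) : ℝ) : ℂ) := by
      rw [← hcos j]
      change (ℚ⟮ζ⟯).val q = _
      simp only [q, map_div₀, map_add, map_zpow₀, map_ofNat]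
      rw [show (ℚ⟮ζ⟯).val z = ζ from hz]
    have hσq : σ q = ((Real.cos (2 * Real.pi * (c * j) / N) : ℝ) : ℂ) := by
      have h1 : σ q = ((ζ ^ c) ^ j + (ζ ^ c) ^ (-j)) / 2 := by
        simp only [q, map_div₀, map_add, map_zpow₀, map_ofNat]
        rw [show σ z = ζ ^ c from hσ]
      rw [h1, ← zpow_mul, ← zpow_mul]
      have h2 := hcos (c * j)
      rw [show c * -j = -(c * j) by ring, h2]
      push_cast
      rfl
    change (σ (g ((Real.cos (2 * Real.pi * j / N) * x : ℝ) : ℂ))).re = _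
    have h3 : ((Real.cos (2 * Real.pi * j / N) * x : ℝ) : ℂ) = q • (x : ℂ) := by
      rw [Algebra.smul_def]
      change _ = ((q : ℚ⟮ζ⟯) : ℂ) * x
      rw [hq]
      push_cast
      rfl
    rw [h3, map_smul, smul_eq_mul, map_mul, hσq, Complex.re_ofReal_mul]
    rfl

end Pool.Agent.Helper64.Sq
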