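import Pool.Agent.Helper64.Sq.NG2

/-!
# Module N: the families G1 - G4, final form
-/

open scoped Real

namespace Pool.Agent.Helper64.Sq

open Pool.Agent.Helper27.Sq

variable {n : ℕ} {a t X th : Fin 3 → ℝ} {M D : Fin 3 → Fin 3 → ℕ}

theorem th_row (h : Facts n a t X th M D) {k : Fin 3} {p q : ℕ} (hr : Row M k p q) :
    th k = p * t 0 + q * t 1 := by
  rw [h.ang k, hr.1, hr.2.1, hr.2.2]
  push_cast
  ring

theorem family_G1 (h : Facts n a t X th M D) (hn : ¬ IsSquare n)
    (hPQ : (3:ℝ) * t 0 + 3 * t 1 = π)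
    (hind : ∀ m m' : ℤ, (m:ℝ) * t 0 + m' * t 1 = 0 → m = 0 ∧ m' = 0)
    (h0 : Row M 0 3 0) (h1 : Row M 1 0 2) (h2 : Row M 2 0 1) : ExcX X := by
  obtain ⟨A, C, κ, κ', hA0, hC1, hAC, hCA, hC2, ha0, ha2, hκ, hκ', hs', S0, S1, S2, S01, T0, T1,
    U0, U1⟩ := G_data h hPQ
  have hb := h.a_pos 1
  have hC0 : 0 < C := by linarith
  have e0 : th 0 = 3 * t 0 := by rw [th_row h h0]; push_cast; ring
  have e1 : th 1 = 2 * t 1 := by rw [th_row h h1]; push_cast; ring
  have e2 : th 2 = t 1 := by rw [th_row h h2]; push_cast; ring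
  set R := κ / κ' / C ^ 2 with hR
  have hR0 : 0 < R := by positivity
  have X0 : X 0 = R * a 1 * (3 * A * (A + 1)) := by
    have := hs' 0
    rw [e0] at this
    rw [this] at U0
    rw [hR]
    field_simp
    linear_combination U0
  have X1 : X 1 = R * a 1 * (C * (2 * A + 1)) := by
    have := hs' 1
    rw [e1] at this
    rw [this] at T1
    rw [hR]
    field_simp
    linear_combination T1
  have X2 : X 2 = R * a 1 * C ^ 2 := by
    have := hs' 2
    rw [e2, S1] at this
    rw [hR]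
    field_simp
    linear_combination -this
  have harea : (n:ℝ) = R ^ 2 * (3 * (A + 1) * (2 * A + 1)) := by
    have h3 := h.area 2 1
    rw [e2] at h3
    have h4 : X 0 * X 1 = n * (a 2 * a 0) := by
      apply mul_right_cancel₀ (sin_t_pos h 1).ne'
      have : X (2+1) * X (2+2) * Real.sin (t 1) = n * (a (1+1) * a (1+2) * Real.sin (t 1)) := h3
      simp only [Fin.reduceAdd] at this
      linarith
    rw [X0, X1, ha0, ha2] at h4
    have h5 : A * C * a 1 ^ 2 ≠ 0 := by positivity
    apply mul_left_cancel₀ h5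
    linear_combination -h4
  obtain ⟨K1, hK1⟩ := G_colour h hPQ hind (-1)
  obtain ⟨K2, hK2⟩ := G_colour h hPQ hind 1
  rw [h0.1, h0.2.1, h0.2.2, h1.1, h1.2.1, h1.2.2] at hK1 hK2
  norm_num at hK1 hK2
  rw [X0, X1, X2, ha0, ha2] at hK1 hK2
  obtain ⟨hA, hC, hRQ⟩ := G1_alg (K1 := K1) (K2 := K2) (n := n) hA0 hC1 hAC hCA hC2 hR0
    (by apply mul_right_cancel₀ hb.ne'; linear_combination hK1)
    (by apply mul_right_cancel₀ hb.ne'; linear_combination hK2) harea
  refine G_end (n := n) (lam := R * a 1) hA0 hC1 hC2 hA hC (by positivity) hRQ hn (Or.inl ⟨?_, harea⟩)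
  intro k
  fin_cases k
  · simpa using X0
  · simpa using X1
  · simpa using X2

theorem family_G2 (h : Facts n a t X th M D) (hn : ¬ IsSquare n)
    (hPQ : (3:ℝ) * t 0 + 3 * t 1 = π)
    (hind : ∀ m m' : ℤ, (m:ℝ) * t 0 + m' * t 1 = 0 → m = 0 ∧ m' = 0)
    (h0 : Row M 0 2 1) (h1 : Row M 1 1 1) (h2 : Row M 2 0 1) : ExcX X := by
  obtain ⟨A, C, κ, κ', hA0, hC1, hAC, hCA, hC2, ha0, ha2, hκ, hκ', hs', S0, S1, S2, S01, T0, T1,
    U0, U1⟩ := G_data h hPQ
  have hb := h.a_pos 1
  have hC0 : 0 < C := by linarith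
  have e0 : th 0 = 2 * t 0 + t 1 := by rw [th_row h h0]; push_cast; ring
  have e1 : th 1 = t 0 + t 1 := by rw [th_row h h1]; push_cast; ring
  have e2 : th 2 = t 1 := by rw [th_row h h2]; push_cast; ring
  set R := κ / κ' with hR
  have hR0 : 0 < R := by positivity
  have X0 : X 0 = R * a 1 * (A + 1) := by
    have := hs' 0
    rw [e0, U1] at this
    rw [hR]
    field_simp
    linear_combination -this
  have X1 : X 1 = R * a 1 * C := by
    have := hs' 1
    rw [e1, S01] at this
    rw [hR]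
    field_simp
    linear_combination -this
  have X2 : X 2 = R * a 1 := by
    have := hs' 2
    rw [e2, S1] at this
    rw [hR]
    field_simp
    linear_combination -this
  have harea : (n:ℝ) * A = R ^ 2 * (A + 1) := by
    have h3 := h.area 2 1
    rw [e2] at h3
    have h4 : X 0 * X 1 = n * (a 2 * a 0) := by
      apply mul_right_cancel₀ (sin_t_pos h 1).ne'
      have : X (2+1) * X (2+2) * Real.sin (t 1) = n * (a (1+1) * a (1+2) * Real.sin (t 1)) := h3
      simp only [Fin.reduceAdd] at this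
      linarith
    rw [X0, X1, ha0, ha2] at h4
    have h5 : C * a 1 ^ 2 ≠ 0 := by positivity
    apply mul_left_cancel₀ h5
    linear_combination -h4
  obtain ⟨K1, hK1⟩ := G_colour h hPQ hind (-1)
  obtain ⟨K2, hK2⟩ := G_colour h hPQ hind 1
  rw [h0.1, h0.2.1, h0.2.2, h1.1, h1.2.1, h1.2.2] at hK1 hK2
  norm_num at hK1 hK2
  rw [X0, X1, X2, ha0, ha2] at hK1 hK2
  obtain ⟨hC, hK⟩ := G2_alg (K1 := K1) (K2 := K2) hA0 hC1 hAC hC2 hR0
    (by apply mul_right_cancel₀ hb.ne'; linear_combination hK1)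
    (by apply mul_right_cancel₀ hb.ne'; linear_combination hK2)
  have hC1Q : C + 1 ∈ QQ := add_mem hC (one_mem _)
  have hRA : R = K2 / (C + 1) * A := by
    have : C + 1 ≠ 0 := by positivity
    field_simp
    linear_combination -hK
  have hA : A ∈ QQ := by
    by_contra hirr
    have g1 : (K2 / (C + 1) * C - D 1 0) * A = D 1 1 + D 1 2 * C := by
      have h3 := h.sid 1
      rw [X1, ha0, ha2] at h3
      have h4 : R * C = D 1 0 * A + D 1 1 + D 1 2 * C := by
        apply mul_right_cancel₀ hb.ne'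
        linear_combination h3
      rw [hRA] at h4
      linear_combination h4
    have g2 : (K2 / (C + 1) - D 2 0) * A = D 2 1 + D 2 2 * C := by
      have h3 := h.sid 2
      rw [X2, ha0, ha2] at h3
      have h4 : R = D 2 0 * A + D 2 1 + D 2 2 * C := by
        apply mul_right_cancel₀ hb.ne'
        linear_combination h3
      rw [hRA] at h4
      linear_combination h4
    obtain ⟨-, g3⟩ := irr_coeff hirr (sub_mem (mul_mem (div_mem (int_mem _) hC1Q) hC) (nat_mem _))
      (add_mem (nat_mem _) (mul_mem (nat_mem _) hC)) g1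
    obtain ⟨-, g4⟩ := irr_coeff hirr (sub_mem (div_mem (int_mem _) hC1Q) (nat_mem _))
      (add_mem (nat_mem _) (mul_mem (nat_mem _) hC)) g2
    have key : ∀ p q : ℕ, (p:ℝ) + q * C = 0 → p = 0 ∧ q = 0 := by
      intro p q hpq
      have h5 : (0:ℝ) ≤ p := Nat.cast_nonneg _
      have h6 : (0:ℝ) ≤ q * C := by positivity
      have h7 : (p:ℝ) = 0 := by linarith
      have h8 : (q:ℝ) * C = 0 := by linarith
      exact ⟨by exact_mod_cast h7, by exact_mod_cast (mul_eq_zero.mp h8).resolve_right hC0.ne'⟩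
    obtain ⟨d11, d12⟩ := key _ _ g3
    obtain ⟨d21, d22⟩ := key _ _ g4
    obtain ⟨j, e, j', e', c1, c2, c3, c4, c5, c6, c7⟩ := h.ce 0
    rw [zero_add] at c5 c6
    have he : e = 0 := by
      fin_cases e
      · rfl
      · exact absurd d11 c5
      · exact absurd d12 c5
    have he' : e' = 0 := by
      fin_cases e'
      · rfl
      · exact absurd d21 c6
      · exact absurd d22 c6
    subst he
    subst he'
    have hj : j = 1 := by
      fin_cases j
      · exact absurd rfl c1
      · rfl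
      · exact absurd h0.2.2 c3
    have hj' : j' = 1 := by
      fin_cases j'
      · exact absurd rfl c2
      · rfl
      · exact absurd h0.2.2 c4
    subst hj
    subst hj'
    rcases c7 rfl with c8 | c8
    · rw [h0.2.1] at c8
      omega
    · exact c8 rfl
  have hRQ : R ∈ QQ := by
    rw [hRA]
    exact mul_mem (div_mem (int_mem _) hC1Q) hA
  refine G_end (n := n) (lam := R * a 1) (R := R / A) hA0 hC1 hC2 hA hC (by positivity)
    (div_mem hRQ hA) hn (Or.inr (Or.inl ⟨?_, ?_⟩))
  · intro k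
    fin_cases k
    · simpa using X0
    · simpa using X1
    · simpa using X2
  · field_simp
    linear_combination harea

theorem family_G3 (h : Facts n a t X th M D) (hn : ¬ IsSquare n)
    (hPQ : (3:ℝ) * t 0 + 3 * t 1 = π)
    (hind : ∀ m m' : ℤ, (m:ℝ) * t 0 + m' * t 1 = 0 → m = 0 ∧ m' = 0)
    (h0 : Row M 0 2 1) (h1 : Row M 1 0 2) (h2 : Row M 2 1 0) : ExcX X := by
  obtain ⟨A, C, κ, κ', hA0, hC1, hAC, hCA, hC2, ha0, ha2, hκ, hκ', hs', S0, S1, S2, S01, T0, T1,
    U0, U1⟩ := G_data h hPQ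
  have hb := h.a_pos 1
  have hC0 : 0 < C := by linarith
  have e0 : th 0 = 2 * t 0 + t 1 := by rw [th_row h h0]; push_cast; ring
  have e1 : th 1 = 2 * t 1 := by rw [th_row h h1]; push_cast; ring
  have e2 : th 2 = t 0 := by rw [th_row h h2]; push_cast; ring
  set R := κ / κ' / C with hR
  have hR0 : 0 < R := by positivity
  have X0 : X 0 = R * a 1 * (C * (A + 1)) := by
    have := hs' 0
    rw [e0, U1] at this
    rw [hR]
    field_simp
    linear_combination -this
  have X1 : X 1 = R * a 1 * (2 * A + 1) := by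
    have := hs' 1
    rw [e1] at this
    rw [this] at T1
    rw [hR]
    field_simp
    linear_combination T1
  have X2 : X 2 = R * a 1 * (A * C) := by
    have := hs' 2
    rw [e2, S0] at this
    rw [hR]
    field_simp
    linear_combination -this
  have harea : (n:ℝ) = R ^ 2 * ((A + 1) * (2 * A + 1)) := by
    have h3 := h.area 2 0
    rw [e2] at h3
    have h4 : X 0 * X 1 = n * (a 1 * a 2) := by
      apply mul_right_cancel₀ (sin_t_pos h 0).ne'
      have : X (2+1) * X (2+2) * Real.sin (t 0) = n * (a (0+1) * a (0+2) * Real.sin (t 0)) := h3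
      simp only [Fin.reduceAdd, zero_add] at this
      linarith
    rw [X0, X1, ha2] at h4
    have h5 : C * a 1 ^ 2 ≠ 0 := by positivity
    apply mul_left_cancel₀ h5
    linear_combination -h4
  obtain ⟨K1, hK1⟩ := G_colour h hPQ hind (-1)
  obtain ⟨K2, hK2⟩ := G_colour h hPQ hind 1
  rw [h0.1, h0.2.1, h0.2.2, h1.1, h1.2.1, h1.2.2] at hK1 hK2
  norm_num at hK1 hK2
  rw [X0, X1, X2, ha0, ha2] at hK1 hK2
  obtain ⟨hA, hC, hRQ⟩ := G3_alg (K1 := K1) (K2 := K2) (n := n) hA0 hC1 hAC hCA hC2 hR0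
    (by apply mul_right_cancel₀ hb.ne'; linear_combination hK1)
    (by apply mul_right_cancel₀ hb.ne'; linear_combination hK2) harea
  refine G_end (n := n) (lam := R * a 1) hA0 hC1 hC2 hA hC (by positivity) hRQ hn
    (Or.inr (Or.inr (Or.inl ⟨?_, harea⟩)))
  intro k
  fin_cases k
  · simpa using X0
  · simpa using X1
  · simpa using X2

theorem family_G4 (h : Facts n a t X th M D) (hn : ¬ IsSquare n)
    (hXinj : Function.Injective X) (hPQ : (3:ℝ) * t 0 + 3 * t 1 = π)
    (hind : ∀ m m' : ℤ, (m:ℝ) * t 0 + m' * t 1 = 0 → m = 0 ∧ m' = 0)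
    (h0 : Row M 0 2 0) (h1 : Row M 1 0 2) (h2 : Row M 2 1 1) : ExcX X := by
  obtain ⟨A, C, κ, κ', hA0, hC1, hAC, hCA, hC2, ha0, ha2, hκ, hκ', hs', S0, S1, S2, S01, T0, T1,
    U0, U1⟩ := G_data h hPQ
  have hb := h.a_pos 1
  have hC0 : 0 < C := by linarith
  have e0 : th 0 = 2 * t 0 := by rw [th_row h h0]; push_cast; ring
  have e1 : th 1 = 2 * t 1 := by rw [th_row h h1]; push_cast; ring
  have e2 : th 2 = t 0 + t 1 := by rw [th_row h h2]; push_cast; ring
  set R := κ / κ' / C with hR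
  have hR0 : 0 < R := by positivity
  have X0 : X 0 = R * a 1 * (A * (A + 2)) := by
    have := hs' 0
    rw [e0] at this
    rw [this] at T0
    rw [hR]
    field_simp
    linear_combination T0
  have X1 : X 1 = R * a 1 * (2 * A + 1) := by
    have := hs' 1
    rw [e1] at this
    rw [this] at T1
    rw [hR]
    field_simp
    linear_combination T1
  have X2 : X 2 = R * a 1 * C ^ 2 := by
    have := hs' 2
    rw [e2, S01] at this
    rw [hR]
    field_simp
    linear_combination -this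
  have harea : (n:ℝ) = R ^ 2 * ((2 * A + 1) * (A + 2)) := by
    have h3 := h.area 2 2
    rw [e2, S01, ← S2] at h3
    have h4 : X 0 * X 1 = n * (a 0 * a 1) := by
      apply mul_right_cancel₀ (sin_t_pos h 2).ne'
      have : X (2+1) * X (2+2) * Real.sin (t 2) = n * (a (2+1) * a (2+2) * Real.sin (t 2)) := h3
      simp only [Fin.reduceAdd] at this
      linarith
    rw [X0, X1, ha0] at h4
    have h5 : A * a 1 ^ 2 ≠ 0 := by positivity
    apply mul_left_cancel₀ h5
    linear_combination -h4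
  obtain ⟨K1, hK1⟩ := G_colour h hPQ hind (-1)
  obtain ⟨K2, hK2⟩ := G_colour h hPQ hind 1
  rw [h0.1, h0.2.1, h0.2.2, h1.1, h1.2.1, h1.2.2] at hK1 hK2
  norm_num at hK1 hK2
  rw [X0, X1, X2, ha0, ha2] at hK1 hK2
  have hA1 : A ≠ 1 := by
    intro h3
    have h4 : X 0 = X 1 := by rw [X0, X1, h3]; norm_num
    exact absurd (hXinj h4) (by decide)
  obtain ⟨μ, k, hμ, hk, hCμ, hRk⟩ := G4_alg (K1 := K1) (K2 := K2) hA0 hA1 hC1 hAC hC2 hR0
    (by apply mul_right_cancel₀ hb.ne'; linear_combination hK1 + (R * a 1) * hC2)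
    (by apply mul_right_cancel₀ hb.ne'; linear_combination hK2 + (R * a 1) * hC2)
  have hA : A ∈ QQ := by
    refine G4_quad (x0 := D 1 0) (x1 := D 1 1) (x2 := D 1 2) (y0 := D 0 0) (y1 := D 0 1)
      (y2 := D 0 2) hA0 hA1 hC1 hC2 hR0 hμ hk hCμ hRk ?_ ?_
    · have h3 := h.sid 1
      rw [X1, ha0, ha2] at h3
      apply mul_right_cancel₀ hb.ne'
      linear_combination h3
    · have h3 := h.sid 0
      rw [X0, ha0, ha2] at h3
      apply mul_right_cancel₀ hb.ne'
      linear_combination h3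
  have hC : C ∈ QQ := by
    rw [hCμ]
    exact mul_mem hμ (sub_mem hA (one_mem _))
  have hRQ : R ∈ QQ := by
    have : R = k * (A - 1) / (3 * A) := by rw [← hRk]; field_simp
    rw [this]
    exact div_mem (mul_mem hk (sub_mem hA (one_mem _))) (mul_mem three_mem hA)
  refine G_end (n := n) (lam := R * a 1) hA0 hC1 hC2 hA hC (by positivity) hRQ hn
    (Or.inr (Or.inr (Or.inr ⟨?_, harea⟩)))
  intro k
  fin_cases k
  · simpa using X0
  · simpa using X1
  · simpa using X2

end Pool.Agent.Helper64.Sq
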