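import Pool.Agent.Helper64.Sq.NF
import Pool.Agent.Helper64.Sq.NG3

/-!
# Module N: enumeration and assembly
-/

open scoped Real

namespace Pool.Agent.Helper64.Sq

open Pool.Agent.Helper27.Sq

/-- canonical row matrices -/
def canon : List (Fin 3 → ℕ × ℕ) :=
  [![(1,0),(0,1),(1,1)], ![(1,0),(0,1),(2,0)], ![(1,0),(0,1),(2,1)], ![(1,0),(0,1),(2,2)],
   ![(2,0),(0,2),(1,0)], ![(2,0),(1,1),(0,1)],
   ![(3,0),(0,2),(0,1)], ![(2,1),(1,1),(0,1)], ![(2,1),(0,2),(1,0)], ![(2,0),(0,2),(1,1)]]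

def perms : List (Fin 3 → Fin 3) :=
  [![0,1,2], ![0,2,1], ![1,0,2], ![1,2,0], ![2,0,1], ![2,1,0]]

theorem perms_bij : ∀ p ∈ perms, Function.Bijective p := by decide

def chk (r : Fin 3 → ℕ × ℕ) : Bool :=
  perms.any fun p => canon.any fun c =>
    (r (p 0) == c 0 && r (p 1) == c 1 && r (p 2) == c 2) ||
    ((r (p 0)).swap == c 0 && (r (p 1)).swap == c 1 && (r (p 2)).swap == c 2)

def okk (a b c d e f : ℕ) : Bool :=
  (a == 0 && b == 0) || (c == 0 && d == 0) || (e == 0 && f == 0) ||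
  (a == c && b == d) || (a == e && b == f) || (c == e && d == f) ||
  decide (3 < a + c + e) || decide (3 < b + d + f) || chk ![(a,b),(c,d),(e,f)]

theorem enum : ∀ a < 4, ∀ b < 4, ∀ c < 4, ∀ d < 4, ∀ e < 4, ∀ f < 4, okk a b c d e f = true := by
  decide +kernel

def chk2 (m : Fin 3 → Fin 3 → ℕ) : Bool :=
  perms.any fun p => (List.finRange 3).all fun k => (List.finRange 3).all fun j =>
    m (p k) j == if j = k then 1 else 0

def okk2 (a b c d e f g h i : ℕ) : Bool :=
  (a == 0 && b == 0 && c == 0) || (d == 0 && e == 0 && f == 0) || (g == 0 && h == 0 && i == 0) ||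
  !(a + d + g == 1) || !(b + e + h == 1) || !(c + f + i == 1) ||
  chk2 ![![a,b,c],![d,e,f],![g,h,i]]

theorem enum2 : ∀ x y z : Fin 2 × Fin 2 × Fin 2,
    okk2 x.1 x.2.1 x.2.2 y.1 y.2.1 y.2.2 z.1 z.2.1 z.2.2 = true := by
  decide +kernel

variable {n : ℕ} {a t X th : Fin 3 → ℝ} {M D : Fin 3 → Fin 3 → ℕ}

theorem FactsAll_perm (hF : FactsAll n a t X th M D) (σ ρ : Equiv.Perm (Fin 3)) :
    FactsAll n (a ∘ ρ) (t ∘ ρ) (X ∘ σ) (th ∘ σ) (fun k j => M (σ k) (ρ j))
      (fun l e => D (σ l) (ρ e)) :=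
  fun σ' ρ' => hF (σ'.trans σ) (ρ'.trans ρ)

theorem FactsAll_self (hF : FactsAll n a t X th M D) : Facts n a t X th M D :=
  hF (Equiv.refl _) (Equiv.refl _)

theorem th_eq_t (h : Facts n a t X th M D) (h0 : Row M 0 1 0) (h1 : Row M 1 0 1) :
    ∀ k, th k = t k := by
  have e0 : th 0 = t 0 := by rw [th_row h h0]; push_cast; ring
  have e1 : th 1 = t 1 := by rw [th_row h h1]; push_cast; ring
  have e2 : th 2 = t 2 := by have := h.t_sum; have := h.th_sum; linarith
  intro k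
  fin_cases k
  · exact e0
  · exact e1
  · exact e2

theorem core2 (h : Facts n a t X th M D) (hn : ¬ IsSquare n) (hX : Function.Injective X)
    (hnr : ¬ (∃ d : ℕ, 0 < d ∧ ∀ j, ∃ k : ℤ, t j * d = k * π)) (c : Fin 3 → ℕ × ℕ)
    (hc : c ∈ canon) (hM : ∀ k, Row M k (c k).1 (c k).2) : ExcX X := by
  have hPQ : (((c 0).1 + (c 1).1 + (c 2).1 : ℕ) : ℝ) * t 0
      + (((c 0).2 + (c 1).2 + (c 2).2 : ℕ) : ℝ) * t 1 = π := by
    have := col_sum h
    rw [(hM 0).1, (hM 1).1, (hM 2).1, (hM 0).2.1, (hM 1).2.1, (hM 2).2.1, (hM 0).2.2,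
      (hM 1).2.2, (hM 2).2.2] at this
    push_cast at this ⊢
    linarith
  have hind := indep h.t_sum _ _ hPQ hnr
  have r0 := hM 0
  have r1 := hM 1
  have r2 := hM 2
  simp only [canon, List.mem_cons, List.not_mem_nil, or_false] at hc
  rcases hc with rfl | rfl | rfl | rfl | rfl | rfl | rfl | rfl | rfl | rfl
  · simp at hPQ r0 r1 r2
    exact sim_right h hn r0 r1 r2 hPQ
  · simp at r0 r1 r2
    exact (sim_odd h hn (th_eq_t h r0 r1) r0 r1 _ _ hPQ hind (Or.inl (by decide))).elim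
  · simp at r0 r1 r2
    exact (sim_odd h hn (th_eq_t h r0 r1) r0 r1 _ _ hPQ hind (Or.inl (by decide))).elim
  · simp at r0 r1 r2
    exact (sim_odd h hn (th_eq_t h r0 r1) r0 r1 _ _ hPQ hind (Or.inl (by decide))).elim
  · simp at hPQ r0 r1 r2
    exact family_F1 h hn hPQ hind r0 r1 r2
  · simp at hPQ r0 r1 r2
    exact family_F2 h hn hPQ hind r0 r1 r2
  · simp at hPQ r0 r1 r2
    exact family_G1 h hn hPQ hind r0 r1 r2
  · simp at hPQ r0 r1 r2
    exact family_G2 h hn hPQ hind r0 r1 r2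
  · simp at hPQ r0 r1 r2
    exact family_G3 h hn hPQ hind r0 r1 r2
  · simp at hPQ r0 r1 r2
    exact family_G4 h hn hX hPQ hind r0 r1 r2

/-- the bounds `P, Q ≤ 3` -/
theorem PQ_le (h : Facts n a t X th M D)
    (hnr : ¬ (∃ d : ℕ, 0 < d ∧ ∀ j, ∃ k : ℤ, t j * d = k * π)) (hM2 : ∀ k, M k 2 = 0) :
    M 0 0 + M 1 0 + M 2 0 ≤ 3 ∧ M 0 1 + M 1 1 + M 2 1 ≤ 3 := by
  set P := M 0 0 + M 1 0 + M 2 0 with hP
  set Q := M 0 1 + M 1 1 + M 2 1 with hQ
  have hPQ : (P:ℝ) * t 0 + Q * t 1 = π := by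
    have := col_sum h
    rw [hM2 0, hM2 1, hM2 2, ← hP, ← hQ] at this
    push_cast at this ⊢
    linarith
  have hind := indep h.t_sum _ _ hPQ hnr
  -- a vertex relation
  obtain ⟨m, E, hE, hlt, hrel⟩ : ∃ (m : Fin 3 → ℕ) (E : ℕ), (E = 1 ∨ E = 2) ∧
      (m 0 < m 2 ∨ m 1 < m 2) ∧ m 0 * t 0 + m 1 * t 1 + m 2 * t 2 = E * π := by
    by_cases hP0 : 0 < P
    · obtain ⟨m, E, h1, h2, h3⟩ := h.vert 0 2 (by rw [hM2 0, hM2 1, hM2 2]; exact hP0)
      exact ⟨m, E, h1, Or.inl h2, h3⟩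
    · have hQ0 : 0 < Q := by
        rcases Nat.eq_zero_or_pos Q with h4 | h4
        · exfalso
          have h5 : P = 0 := by omega
          rw [h4, h5] at hPQ
          simp at hPQ
          exact Real.pi_ne_zero hPQ.symm
        · exact h4
      obtain ⟨m, E, h1, h2, h3⟩ := h.vert 1 2 (by rw [hM2 0, hM2 1, hM2 2]; exact hQ0)
      exact ⟨m, E, h1, Or.inr h2, h3⟩
  obtain ⟨e0, e1⟩ := rel_of_indep h.t_sum P Q hPQ hind (fun j => (m j : ℤ)) (E : ℤ) (by
    push_cast
    exact hrel)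
  have hneg : (E:ℤ) - m 2 < 0 := by
    rcases hlt with h4 | h4
    · by_contra hcon
      push Not at hcon
      have : 0 ≤ ((E:ℤ) - m 2) * P := mul_nonneg hcon (by positivity)
      omega
    · by_contra hcon
      push Not at hcon
      have : 0 ≤ ((E:ℤ) - m 2) * Q := mul_nonneg hcon (by positivity)
      omega
  have hE2 : (E:ℤ) ≤ 2 := by rcases hE with rfl | rfl <;> norm_num
  have h0 : (0:ℤ) ≤ m 0 := by positivity
  have h1 : (0:ℤ) ≤ m 1 := by positivity
  constructor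
  · by_contra hcon
    push Not at hcon
    have hP4 : (4:ℤ) ≤ P := by exact_mod_cast hcon
    nlinarith
  · by_contra hcon
    push Not at hcon
    have hQ4 : (4:ℤ) ≤ Q := by exact_mod_cast hcon
    nlinarith

theorem core (hF : FactsAll n a t X th M D) (hn : ¬ IsSquare n) (hX : Function.Injective X)
    (hnr : ¬ (∃ d : ℕ, 0 < d ∧ ∀ j, ∃ k : ℤ, t j * d = k * π)) (hM2 : ∀ k, M k 2 = 0) :
    ExcX X := by
  have h := FactsAll_self hF
  obtain ⟨hP, hQ⟩ := PQ_le h hnr hM2
  have hen := enum (M 0 0) (by omega) (M 0 1) (by omega) (M 1 0) (by omega) (M 1 1) (by omega)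
    (M 2 0) (by omega) (M 2 1) (by omega)
  have n0 := row_ne h 0
  have n1 := row_ne h 1
  have n2 := row_ne h 2
  have i01 := row_inj h hX (k := 0) (l := 1) (by decide)
  have i02 := row_inj h hX (k := 0) (l := 2) (by decide)
  have i12 := row_inj h hX (k := 1) (l := 2) (by decide)
  rw [hM2] at n0 n1 n2
  rw [hM2, hM2] at i01 i02 i12
  simp only [and_true] at n0 n1 n2 i01 i02 i12
  have hchk : chk ![(M 0 0, M 0 1), (M 1 0, M 1 1), (M 2 0, M 2 1)] = true := by
    unfold okk at hen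
    simp only [Bool.or_eq_true, Bool.and_eq_true, beq_iff_eq, decide_eq_true_eq] at hen
    rcases hen with (((((((h1 | h1) | h1) | h1) | h1) | h1) | h1) | h1) | h1
    · exact absurd h1 n0
    · exact absurd h1 n1
    · exact absurd h1 n2
    · exact absurd h1 i01
    · exact absurd h1 i02
    · exact absurd h1 i12
    · omega
    · omega
    · exact h1
  have hr : ∀ k : Fin 3, ![(M 0 0, M 0 1), (M 1 0, M 1 1), (M 2 0, M 2 1)] k
      = (M k 0, M k 1) := by
    intro k; fin_cases k <;> rfl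
  unfold chk at hchk
  simp only [List.any_eq_true, Bool.or_eq_true, Bool.and_eq_true, beq_iff_eq, hr] at hchk
  obtain ⟨p, hp, c, hc, hpc⟩ := hchk
  let σ : Equiv.Perm (Fin 3) := Equiv.ofBijective p (perms_bij p hp)
  have hσ : ∀ k, σ k = p k := fun k => rfl
  rcases hpc with ⟨⟨c0, c1⟩, c2⟩ | ⟨⟨c0, c1⟩, c2⟩
  · apply excX_perm σ
    refine core2 (hF σ (Equiv.refl _)) hn (hX.comp σ.injective) hnr c hc ?_
    intro k
    have hk : (M (p k) 0, M (p k) 1) = c k := by
      fin_cases k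
      · exact c0
      · exact c1
      · exact c2
    rw [← hk]
    exact ⟨rfl, rfl, hM2 _⟩
  · apply excX_perm σ
    refine core2 (hF σ (Equiv.swap 0 1)) hn (hX.comp σ.injective) ?_ c hc ?_
    · rintro ⟨d, hd, hj⟩
      apply hnr
      refine ⟨d, hd, fun j => ?_⟩
      have := hj (Equiv.swap 0 1 j)
      simpa using this
    · intro k
      have hk : (M (p k) 0, M (p k) 1).swap = c k := by
        fin_cases k
        · exact c0
        · exact c1
        · exact c2
      rw [← hk]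
      refine ⟨?_, ?_, ?_⟩
      · show M (σ k) (Equiv.swap 0 1 0) = M (p k) 1
        rw [Equiv.swap_apply_left]
        rfl
      · show M (σ k) (Equiv.swap 0 1 1) = M (p k) 0
        rw [Equiv.swap_apply_right]
        rfl
      · show M (σ k) (Equiv.swap 0 1 2) = 0
        rw [Equiv.swap_apply_of_ne_of_ne (by decide) (by decide)]
        exact hM2 _

theorem specN : SpecN := by
  intro n a t X th M D hF hn hX hnr
  have h := FactsAll_self hF
  have hcol := col_sum h
  have hsum := h.t_sum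
  by_cases hz : ∃ j, M 0 j + M 1 j + M 2 j = 0
  · obtain ⟨j, hj⟩ := hz
    have hF' := FactsAll_perm hF (Equiv.refl _) (Equiv.swap j 2)
    refine core hF' hn hX ?_ ?_
    · rintro ⟨d, hd, hj⟩
      apply hnr
      refine ⟨d, hd, fun i => ?_⟩
      have := hj (Equiv.swap j 2 i)
      simpa using this
    · intro k
      show M k (Equiv.swap j 2 2) = 0
      rw [Equiv.swap_apply_right]
      fin_cases k
      · show M 0 j = 0
        omega
      · show M 1 j = 0
        omega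
      · show M 2 j = 0
        omega
  · exfalso
    push Not at hz
    have z0 := hz 0
    have z1 := hz 1
    have z2 := hz 2
    have t0 := h.t_pos 0
    have t1 := h.t_pos 1
    have t2 := h.t_pos 2
    have key : ∀ c : ℕ, c ≠ 0 → ∀ x : ℝ, 0 < x → x ≤ (c:ℝ) * x := by
      intro c hc x hx
      have : (1:ℝ) ≤ c := by exact_mod_cast Nat.one_le_iff_ne_zero.mpr hc
      nlinarith
    have key2 : ∀ c : ℕ, c ≠ 0 → ∀ x : ℝ, 0 < x → (c:ℝ) * x = x → c = 1 := by
      intro c hc x hx hcx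
      have h1 : (c:ℝ) = 1 := by
        apply mul_right_cancel₀ hx.ne'
        rw [hcx, one_mul]
      exact_mod_cast h1
    have k0 := key _ z0 _ t0
    have k1 := key _ z1 _ t1
    have k2 := key _ z2 _ t2
    have c0 := key2 _ z0 _ t0 (by linarith)
    have c1 := key2 _ z1 _ t1 (by linarith)
    have c2 := key2 _ z2 _ t2 (by linarith)
    have hen := enum2 (⟨M 0 0, by omega⟩, ⟨M 0 1, by omega⟩, ⟨M 0 2, by omega⟩)
      (⟨M 1 0, by omega⟩, ⟨M 1 1, by omega⟩, ⟨M 1 2, by omega⟩)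
      (⟨M 2 0, by omega⟩, ⟨M 2 1, by omega⟩, ⟨M 2 2, by omega⟩)
    simp only at hen
    have n0 := row_ne h 0
    have n1 := row_ne h 1
    have n2 := row_ne h 2
    have hchk : chk2 ![![M 0 0, M 0 1, M 0 2], ![M 1 0, M 1 1, M 1 2], ![M 2 0, M 2 1, M 2 2]]
        = true := by
      unfold okk2 at hen
      simp only [Bool.or_eq_true, Bool.and_eq_true, beq_iff_eq, Bool.not_eq_true',
        beq_eq_false_iff_ne, ne_eq] at hen
      rcases hen with (((((h1 | h1) | h1) | h1) | h1) | h1) | h1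
      · exact absurd ⟨h1.1.1, h1.1.2, h1.2⟩ n0
      · exact absurd ⟨h1.1.1, h1.1.2, h1.2⟩ n1
      · exact absurd ⟨h1.1.1, h1.1.2, h1.2⟩ n2
      · exact absurd c0 h1
      · exact absurd c1 h1
      · exact absurd c2 h1
      · exact h1
    have hr : ∀ k j : Fin 3, ![![M 0 0, M 0 1, M 0 2], ![M 1 0, M 1 1, M 1 2],
        ![M 2 0, M 2 1, M 2 2]] k j = M k j := by
      intro k j; fin_cases k <;> fin_cases j <;> rfl
    unfold chk2 at hchk
    simp only [List.any_eq_true, List.all_eq_true, List.mem_finRange, forall_const, beq_iff_eq,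
      hr] at hchk
    obtain ⟨p, hp, hpc⟩ := hchk
    exact no_id (hF (Equiv.ofBijective p (perms_bij p hp)) (Equiv.refl _)) hn (fun k j => hpc k j)

end Pool.Agent.Helper64.Sq
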