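import Pool.Agent.Helper27.SqFacts
import Pool.Agent.Helper27.SqSim

/-!
# Module N: general lemmas
-/

open scoped Real

namespace Pool.Agent.Helper64.Sq

open Pool.Agent.Helper27.Sq

variable {n : ℕ} {a t X th : Fin 3 → ℝ} {M D : Fin 3 → Fin 3 → ℕ}

theorem excX_perm {X : Fin 3 → ℝ} (τ : Equiv.Perm (Fin 3)) (h : ExcX (X ∘ τ)) : ExcX X := by
  obtain ⟨x, hx, σ, r, hr, h⟩ := h
  refine ⟨x, hx, τ.symm.trans σ, r, hr, fun k => ?_⟩
  have := h (τ.symm k)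
  simpa using this

theorem excX_of {X x : Fin 3 → ℝ} (hx : Exc x) (r : ℝ) (hr : 0 < r) (h : ∀ k, X k = r * x k) :
    ExcX X := ⟨x, hx, Equiv.refl _, r, hr, h⟩

/-! ### the similar case -/

theorem sin_t_pos (h : Facts n a t X th M D) (j : Fin 3) : 0 < Real.sin (t j) := by
  obtain ⟨κ, hκ, hs⟩ := h.sin_t
  rw [hs j]
  exact mul_pos hκ (h.a_pos j)

theorem sim_R (h : Facts n a t X th M D) (hn : ¬ IsSquare n) (hth : ∀ k, th k = t k) :
    ∃ R : ℝ, 0 < R ∧ R^2 = n ∧ Irrational R ∧ ∀ k, X k = R * a k := by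
  obtain ⟨κ, hκ, hs⟩ := h.sin_t
  obtain ⟨κ', hκ', hs'⟩ := h.sin_th
  have hX : ∀ k, X k = κ / κ' * a k := by
    intro k
    have h1 := hs' k
    rw [hth k, hs k] at h1
    field_simp
    linarith
  have hR : 0 < κ / κ' := div_pos hκ hκ'
  have hR2 : (κ / κ')^2 = n := by
    have h1 := h.area 0 0
    rw [hth 0, hX, hX] at h1
    have h2 := sin_t_pos h 0
    have h3 := h.a_pos (0+1)
    have h4 := h.a_pos (0+2)
    have h5 : a (0+1) * a (0+2) * Real.sin (t 0) ≠ 0 :=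
      (mul_pos (mul_pos h3 h4) h2).ne'
    apply mul_right_cancel₀ h5
    rw [← h1]
    ring
  refine ⟨κ / κ', hR, hR2, ?_, hX⟩
  have h1 : κ / κ' = √(n : ℝ) := by
    rw [← hR2, Real.sqrt_sq hR.le]
  rw [h1]
  exact irrational_sqrt_natCast_iff.mpr hn

/-- a corner filled by one tile -/
theorem unit_corner (h : Facts n a t X th M D) (i : Fin 3)
    (hM : ∀ j, M i j = if j = i then 1 else 0) :
    ∃ e e', e ≠ i ∧ e' ≠ i ∧ e ≠ e' ∧ D (i+1) e ≠ 0 ∧ D (i+2) e' ≠ 0 := by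
  obtain ⟨j, e, j', e', h1, h2, h3, h4, h5, h6, h7⟩ := h.ce i
  have hj : j = i := by
    by_contra hne
    rw [hM, if_neg hne] at h3
    exact h3 rfl
  have hj' : j' = i := by
    by_contra hne
    rw [hM, if_neg hne] at h4
    exact h4 rfl
  subst hj
  subst hj'
  refine ⟨e, e', h1, h2, ?_, h5, h6⟩
  rcases h7 rfl with h8 | h8
  · rw [hM, if_pos rfl] at h8
    omega
  · exact h8

theorem f3p : ∀ i : Fin 3, i + 1 ≠ i := by decide

theorem f3n : ∀ i l : Fin 3, l ≠ i → l = i + 1 ∨ l = i + 2 := by decide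

theorem unit_corner' (h : Facts n a t X th M D) (i : Fin 3)
    (hM : ∀ j, M i j = if j = i then 1 else 0) (l : Fin 3) (hl : l ≠ i) :
    ∃ e, e ≠ i ∧ D l e ≠ 0 := by
  obtain ⟨e, e', h1, h2, _, h3, h4⟩ := unit_corner h i hM
  rcases f3n i l hl with rfl | rfl
  · exact ⟨e, h1, h3⟩
  · exact ⟨e', h2, h4⟩

/-- structure of `D` in the similar case -/
theorem sim_D (h : Facts n a t X th M D) (hn : ¬ IsSquare n) (hth : ∀ k, th k = t k) :
    (∃ i j, i ≠ j ∧ (∀ e, e ≠ j → D i e = 0) ∧ (∀ e, e ≠ i → D j e = 0)) ∨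
    (∃ i, ∀ l, l ≠ i → ∀ e, e ≠ i → D l e = 0) := by
  obtain ⟨R, hR0, hR2, hRi, hX⟩ := sim_R h hn hth
  exact sim_struct D a h.a_pos R hRi hR0 n hR2 (fun l => by rw [← h.sid l, hX l])

/-- a corner filled by one tile cannot be the index in `sim_D` -/
theorem sim_D' (h : Facts n a t X th M D) (hn : ¬ IsSquare n) (hth : ∀ k, th k = t k) :
    (∃ i j, i ≠ j ∧ (¬ ∀ e, M i e = if e = i then 1 else 0) ∧
      (¬ ∀ e, M j e = if e = j then 1 else 0)) ∨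
    (∃ i, (¬ ∀ e, M i e = if e = i then 1 else 0) ∧ ∀ l, l ≠ i → ∀ e, e ≠ i → D l e = 0) := by
  rcases sim_D h hn hth with ⟨i, j, hij, h1, h2⟩ | ⟨i, h1⟩
  · refine Or.inl ⟨i, j, hij, fun hM => ?_, fun hM => ?_⟩
    · obtain ⟨e, he, hD⟩ := unit_corner' h i hM j hij.symm
      exact hD (h2 e he)
    · obtain ⟨e, he, hD⟩ := unit_corner' h j hM i hij
      exact hD (h1 e he)
  · refine Or.inr ⟨i, fun hM => ?_, h1⟩
    obtain ⟨e, he, hD⟩ := unit_corner' h i hM (i+1) (f3p i)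
    exact hD (h1 (i+1) (f3p i) e he)

theorem no_id (h : Facts n a t X th M D) (hn : ¬ IsSquare n)
    (hM : ∀ k j, M k j = if j = k then 1 else 0) : False := by
  have hth : ∀ k, th k = t k := by
    intro k
    rw [h.ang k, hM, hM, hM]
    fin_cases k <;> simp
  rcases sim_D' h hn hth with ⟨i, j, _, h1, _⟩ | ⟨i, h1, _⟩
  · exact h1 (hM i)
  · exact h1 (hM i)

/-! ### column sums -/

theorem col_sum (h : Facts n a t X th M D) :
    ((M 0 0 + M 1 0 + M 2 0 : ℕ) : ℝ) * t 0 + ((M 0 1 + M 1 1 + M 2 1 : ℕ) : ℝ) * t 1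
      + ((M 0 2 + M 1 2 + M 2 2 : ℕ) : ℝ) * t 2 = π := by
  rw [← h.th_sum, h.ang 0, h.ang 1, h.ang 2]
  push_cast
  ring

theorem row_ne (h : Facts n a t X th M D) (k : Fin 3) : ¬ (M k 0 = 0 ∧ M k 1 = 0 ∧ M k 2 = 0) := by
  rintro ⟨h0, h1, h2⟩
  have := h.ang k
  rw [h0, h1, h2] at this
  have h3 := h.th_pos k
  simp at this
  linarith

/-- rows are distinct if the triangle is scalene -/
theorem row_inj (h : Facts n a t X th M D) (hX : Function.Injective X) {k l : Fin 3}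
    (hkl : k ≠ l) : ¬ (M k 0 = M l 0 ∧ M k 1 = M l 1 ∧ M k 2 = M l 2) := by
  rintro ⟨h0, h1, h2⟩
  apply hkl
  apply hX
  obtain ⟨κ', hκ', hs'⟩ := h.sin_th
  have h3 : th k = th l := by rw [h.ang k, h.ang l, h0, h1, h2]
  have h4 := hs' k
  rw [h3, hs' l] at h4
  exact (mul_left_cancel₀ hκ'.ne' h4).symm

/-- independence of two angles -/
theorem indep (hsum : t 0 + t 1 + t 2 = π) (P Q : ℕ) (hPQ : (P:ℝ) * t 0 + Q * t 1 = π)
    (hnr : ¬ (∃ d : ℕ, 0 < d ∧ ∀ j, ∃ k : ℤ, t j * d = k * π)) (m m' : ℤ)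
    (hm : (m:ℝ) * t 0 + m' * t 1 = 0) : m = 0 ∧ m' = 0 := by
  have hpi : (π:ℝ) ≠ 0 := Real.pi_ne_zero
  by_cases hΔ : (P:ℤ) * m' - Q * m = 0
  · have hΔ' : (P:ℝ) * m' - Q * m = 0 := by exact_mod_cast hΔ
    constructor
    · have h1 : (m:ℝ) * π = 0 := by
        rw [← hPQ]
        linear_combination (P:ℝ) * hm - t 1 * hΔ'
      exact_mod_cast (mul_eq_zero.mp h1).resolve_right hpi
    · have h1 : (m':ℝ) * π = 0 := by
        rw [← hPQ]
        linear_combination (Q:ℝ) * hm + t 0 * hΔ'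
      exact_mod_cast (mul_eq_zero.mp h1).resolve_right hpi
  · exfalso
    apply hnr
    have e0 : t 0 * ((P:ℤ) * m' - Q * m : ℤ) = (m' : ℤ) * π := by
      push_cast
      rw [← hPQ]
      linear_combination (-(Q:ℝ)) * hm
    have e1 : t 1 * ((P:ℤ) * m' - Q * m : ℤ) = (-m : ℤ) * π := by
      push_cast
      rw [← hPQ]
      linear_combination (P:ℝ) * hm
    have e2 : t 2 * ((P:ℤ) * m' - Q * m : ℤ) = (((P:ℤ) * m' - Q * m) - m' + m : ℤ) * π := by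
      have h3 : t 2 = π - t 0 - t 1 := by linarith
      rw [h3, sub_mul, sub_mul, e0, e1]
      push_cast
      ring
    refine ⟨((P:ℤ) * m' - Q * m).natAbs, Int.natAbs_pos.mpr hΔ, ?_⟩
    have hall : ∀ j, ∃ k : ℤ, t j * ((P:ℤ) * m' - Q * m : ℤ) = k * π := by
      intro j
      fin_cases j
      · exact ⟨_, e0⟩
      · exact ⟨_, e1⟩
      · exact ⟨_, e2⟩
    intro j
    obtain ⟨k, hk⟩ := hall j
    rcases Int.natAbs_eq ((P:ℤ) * m' - Q * m) with h4 | h4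
    · refine ⟨k, ?_⟩
      rw [← hk]
      congr 1
      have : ((((P:ℤ) * m' - Q * m).natAbs : ℤ) : ℝ) = (((P:ℤ) * m' - Q * m : ℤ) : ℝ) := by
        rw [← h4]
      rw [← this]
      rfl
    · refine ⟨-k, ?_⟩
      have : ((((P:ℤ) * m' - Q * m).natAbs : ℤ) : ℝ) = -(((P:ℤ) * m' - Q * m : ℤ) : ℝ) := by
        have h5 : (((P:ℤ) * m' - Q * m).natAbs : ℤ) = -((P:ℤ) * m' - Q * m) := by omega
        rw [h5]
        push_cast
        ring
      have h6 : t j * (((P:ℤ) * m' - Q * m).natAbs : ℝ) =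
          t j * ((((P:ℤ) * m' - Q * m).natAbs : ℤ) : ℝ) := rfl
      rw [h6, this, mul_neg, hk]
      push_cast
      ring

/-- relations between the angles -/
theorem rel_of_indep (hsum : t 0 + t 1 + t 2 = π) (P Q : ℕ) (hPQ : (P:ℝ) * t 0 + Q * t 1 = π)
    (hind : ∀ m m' : ℤ, (m:ℝ) * t 0 + m' * t 1 = 0 → m = 0 ∧ m' = 0) (m : Fin 3 → ℤ) (E : ℤ)
    (h : (m 0 : ℝ) * t 0 + m 1 * t 1 + m 2 * t 2 = E * π) :
    m 0 = m 2 + (E - m 2) * P ∧ m 1 = m 2 + (E - m 2) * Q := by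
  have h1 := hind (m 0 - m 2 - (E - m 2) * P) (m 1 - m 2 - (E - m 2) * Q) (by
    push_cast
    have h3 : t 2 = π - t 0 - t 1 := by linarith
    rw [h3] at h
    linear_combination h - ((E:ℝ) - m 2) * hPQ)
  constructor
  · linarith [h1.1]
  · linarith [h1.2]

/-- the signs of a colouring are compatible with all relations -/
theorem signs (hsum : t 0 + t 1 + t 2 = π) (P Q : ℕ) (hPQ : (P:ℝ) * t 0 + Q * t 1 = π)
    (hind : ∀ m m' : ℤ, (m:ℝ) * t 0 + m' * t 1 = 0 → m = 0 ∧ m' = 0) (x0 x1 : ℤˣ)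
    (hx : x0 ^ P * x1 ^ Q = -1) (m : Fin 3 → ℤ) (E : ℤ)
    (hm : (m 0 : ℝ) * t 0 + m 1 * t 1 + m 2 * t 2 = E * π) :
    x0 ^ m 0 * x1 ^ m 1 * (-(x0 * x1)) ^ m 2 = (-1) ^ E := by
  obtain ⟨h0, h1⟩ := rel_of_indep hsum P Q hPQ hind m E hm
  generalize hm2 : m 2 = m2 at *
  rw [h0, h1, zpow_add, zpow_add, mul_comm (E - m2) (P:ℤ), mul_comm (E - m2) (Q:ℤ), zpow_mul,
    zpow_mul, zpow_natCast, zpow_natCast]
  have e1 : (-(x0 * x1)) ^ m2 = (-1) ^ m2 * (x0 ^ m2 * x1 ^ m2) := by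
    rw [show -(x0 * x1) = (-1) * (x0 * x1) by simp, mul_zpow, mul_zpow]
  have e2 : (x0 ^ P) ^ (E - m2) * (x1 ^ Q) ^ (E - m2) = (-1) ^ (E - m2) := by
    rw [← mul_zpow, hx]
  have e3 : (x0 ^ m2) * (x0 ^ m2) = 1 := Int.units_mul_self _
  have e4 : (x1 ^ m2) * (x1 ^ m2) = 1 := Int.units_mul_self _
  calc x0 ^ m2 * (x0 ^ P) ^ (E - m2) * (x1 ^ m2 * (x1 ^ Q) ^ (E - m2)) * (-(x0 * x1)) ^ m2
      = ((x0 ^ m2) * (x0 ^ m2)) * ((x1 ^ m2) * (x1 ^ m2)) *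
        ((x0 ^ P) ^ (E - m2) * (x1 ^ Q) ^ (E - m2)) * (-1) ^ m2 := by
        rw [e1]
        simp only [mul_comm, mul_left_comm, mul_assoc]
    _ = (-1) ^ E := by
        rw [e3, e4, e2, one_mul, one_mul, ← zpow_add]
        congr 1
        ring

/-- the colourings -/
theorem colour (h : Facts n a t X th M D) (P Q : ℕ) (hPQ : (P:ℝ) * t 0 + Q * t 1 = π)
    (hind : ∀ m m' : ℤ, (m:ℝ) * t 0 + m' * t 1 = 0 → m = 0 ∧ m' = 0) (x0 x1 : ℤˣ)
    (hx : x0 ^ P * x1 ^ Q = -1) :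
    ∃ K : ℤ, (K : ℝ) * (a 2 - ((x1 : ℤ) : ℝ) * a 0 - ((x0 : ℤ) : ℝ) * a 1)
      = X 2 - (((x0 ^ M 1 0 * x1 ^ M 1 1 * (-(x0 * x1)) ^ M 1 2 : ℤˣ) : ℤ) : ℝ) * X 0
        - (((x0 ^ M 0 0 * x1 ^ M 0 1 * (-(x0 * x1)) ^ M 0 2 : ℤˣ) : ℤ) : ℝ) * X 1 := by
  refine h.col ![x0, x1, -(x0 * x1)] ?_
  intro m E hm
  exact signs h.t_sum P Q hPQ hind x0 x1 hx m E hm

/-! ### the triangle inequalities -/

theorem sin_add_lt {x y : ℝ} (hx : 0 < x) (hy : 0 < y) (hxy : x + y < π) :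
    Real.sin (x + y) < Real.sin x + Real.sin y := by
  have h1 : 0 < Real.sin x := Real.sin_pos_of_pos_of_lt_pi hx (by linarith)
  have h2 : 0 < Real.sin y := Real.sin_pos_of_pos_of_lt_pi hy (by linarith)
  have h3 : Real.cos y < 1 := by
    rw [← Real.cos_zero]
    exact Real.cos_lt_cos_of_nonneg_of_le_pi le_rfl (by linarith) hy
  have h4 : Real.cos x < 1 := by
    rw [← Real.cos_zero]
    exact Real.cos_lt_cos_of_nonneg_of_le_pi le_rfl (by linarith) hx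
  rw [Real.sin_add]
  nlinarith

theorem tri_ineq (h : Facts n a t X th M D) :
    a 0 < a 1 + a 2 ∧ a 1 < a 0 + a 2 ∧ a 2 < a 0 + a 1 := by
  obtain ⟨κ, hκ, hs⟩ := h.sin_t
  have key : ∀ i j k : Fin 3, t i + t j + t k = π → a i < a j + a k := by
    intro i j k hs'
    have h1 : Real.sin (t i) = Real.sin (t j + t k) := by
      rw [show t i = π - (t j + t k) by linarith, Real.sin_pi_sub]
    have h2 := sin_add_lt (h.t_pos j) (h.t_pos k) (by have := h.t_pos i; linarith)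
    rw [← h1, hs i, hs j, hs k, ← mul_add] at h2
    exact lt_of_mul_lt_mul_left h2 hκ.le
  have hsum := h.t_sum
  exact ⟨key 0 1 2 (by linarith), key 1 0 2 (by linarith), key 2 0 1 (by linarith)⟩

end Pool.Agent.Helper64.Sq
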