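import Pool.Agent.Helper64.Sq.N0

/-!
# Module N: the similar case
-/

open scoped Real

namespace Pool.Agent.Helper64.Sq

open Pool.Agent.Helper27.Sq

variable {n : ℕ} {a t X th : Fin 3 → ℝ} {M D : Fin 3 → Fin 3 → ℕ}

/-- a row of the matrix `M` -/
def Row (M : Fin 3 → Fin 3 → ℕ) (k : Fin 3) (p q : ℕ) : Prop := M k 0 = p ∧ M k 1 = q ∧ M k 2 = 0

theorem sim_colour (h : Facts n a t X th M D) (hn : ¬ IsSquare n) (hth : ∀ k, th k = t k)
    (h0 : Row M 0 1 0) (h1 : Row M 1 0 1)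
    (P Q : ℕ) (hPQ : (P:ℝ) * t 0 + Q * t 1 = π)
    (hind : ∀ m m' : ℤ, (m:ℝ) * t 0 + m' * t 1 = 0 → m = 0 ∧ m' = 0) (x0 x1 : ℤˣ)
    (hx : x0 ^ P * x1 ^ Q = -1) : False := by
  obtain ⟨R, hR0, hR2, hRi, hX⟩ := sim_R h hn hth
  obtain ⟨K, hK⟩ := colour h P Q hPQ hind x0 x1 hx
  rw [h0.1, h0.2.1, h0.2.2, h1.1, h1.2.1, h1.2.2] at hK
  simp only [pow_zero, pow_one, one_mul, mul_one] at hK
  rw [hX, hX, hX] at hK
  obtain ⟨i0, i1, i2⟩ := tri_ineq h
  have b0 := h.a_pos 0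
  have b1 := h.a_pos 1
  have b2 := h.a_pos 2
  have hL : a 2 - ((x1 : ℤ) : ℝ) * a 0 - ((x0 : ℤ) : ℝ) * a 1 ≠ 0 := by
    rcases Int.units_eq_one_or x0 with rfl | rfl <;> rcases Int.units_eq_one_or x1 with rfl | rfl <;>
      simp <;> intro h2 <;> linarith
  have hKR : (K : ℝ) = R := by
    apply mul_right_cancel₀ hL
    linear_combination hK
  exact hRi ⟨K, by push_cast; exact hKR⟩

theorem sim_odd (h : Facts n a t X th M D) (hn : ¬ IsSquare n) (hth : ∀ k, th k = t k)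
    (h0 : Row M 0 1 0) (h1 : Row M 1 0 1)
    (P Q : ℕ) (hPQ : (P:ℝ) * t 0 + Q * t 1 = π)
    (hind : ∀ m m' : ℤ, (m:ℝ) * t 0 + m' * t 1 = 0 → m = 0 ∧ m' = 0) (hodd : Odd P ∨ Odd Q) :
    False := by
  rcases hodd with ho | ho
  · exact sim_colour h hn hth h0 h1 P Q hPQ hind (-1) 1 (by rw [ho.neg_one_pow, one_pow, mul_one])
  · exact sim_colour h hn hth h0 h1 P Q hPQ hind 1 (-1) (by rw [ho.neg_one_pow, one_pow, one_mul])

/-- the right-angled case -/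
theorem sim_right (h : Facts n a t X th M D) (hn : ¬ IsSquare n)
    (h0 : Row M 0 1 0) (h1 : Row M 1 0 1) (h2 : Row M 2 1 1)
    (hPQ : (2:ℝ) * t 0 + 2 * t 1 = π) : ExcX X := by
  have hth : ∀ k, th k = t k := by
    intro k
    have hs := h.t_sum
    have := h.ang k
    fin_cases k
    · simp [h0.1, h0.2.1, h0.2.2] at this ⊢
      exact this
    · simp [h1.1, h1.2.1, h1.2.2] at this ⊢
      exact this
    · simp [h2.1, h2.2.1, h2.2.2] at this ⊢
      linarith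
  obtain ⟨R, hR0, hR2, hRi, hX⟩ := sim_R h hn hth
  have hu0 : ∀ e, M 0 e = if e = 0 then 1 else 0 := by
    intro e; fin_cases e <;> simp [h0.1, h0.2.1, h0.2.2]
  have hu1 : ∀ e, M 1 e = if e = 1 then 1 else 0 := by
    intro e; fin_cases e <;> simp [h1.1, h1.2.1, h1.2.2]
  have hD : ∀ l, l ≠ 2 → ∀ e, e ≠ 2 → D l e = 0 := by
    rcases sim_D' h hn hth with ⟨i, j, hij, h3, h4⟩ | ⟨i, h3, h4⟩
    · exfalso
      have hi : i = 2 := by
        fin_cases i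
        · exact absurd hu0 h3
        · exact absurd hu1 h3
        · rfl
      have hj : j = 2 := by
        fin_cases j
        · exact absurd hu0 h4
        · exact absurd hu1 h4
        · rfl
      exact hij (hi.trans hj.symm)
    · have hi : i = 2 := by
        fin_cases i
        · exact absurd hu0 h3
        · exact absurd hu1 h3
        · rfl
      subst hi
      exact h4
  have hX0 : X 0 = D 0 2 * a 2 := by
    rw [h.sid 0, hD 0 (by decide) 0 (by decide), hD 0 (by decide) 1 (by decide)]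
    simp
  have hX1 : X 1 = D 1 2 * a 2 := by
    rw [h.sid 1, hD 1 (by decide) 0 (by decide), hD 1 (by decide) 1 (by decide)]
    simp
  -- Pythagoras
  obtain ⟨κ, hκ, hs⟩ := h.sin_t
  have hpy : a 0 ^ 2 + a 1 ^ 2 = a 2 ^ 2 := by
    have e1 : t 1 = π / 2 - t 0 := by linarith
    have e2 : t 2 = π / 2 := by have := h.t_sum; linarith
    have s0 := hs 0
    have s1 := hs 1
    have s2 := hs 2
    rw [e1, Real.sin_pi_div_two_sub] at s1
    rw [e2, Real.sin_pi_div_two] at s2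
    have s3 := Real.sin_sq_add_cos_sq (t 0)
    rw [s0, s1] at s3
    have s4 : κ ^ 2 * (a 0 ^ 2 + a 1 ^ 2) = κ ^ 2 * a 2 ^ 2 := by
      calc κ ^ 2 * (a 0 ^ 2 + a 1 ^ 2) = (κ * a 0) ^ 2 + (κ * a 1) ^ 2 := by ring
        _ = 1 := s3
        _ = (κ * a 2) ^ 2 := by rw [← s2, one_pow]
        _ = κ ^ 2 * a 2 ^ 2 := by ring
    exact mul_left_cancel₀ (pow_pos hκ 2).ne' s4
  have ha2 := h.a_pos 2
  have hsq : R ^ 2 = (D 0 2 : ℝ) ^ 2 + (D 1 2 : ℝ) ^ 2 := by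
    apply mul_right_cancel₀ (pow_pos ha2 2).ne'
    have e0 := hX 0
    have e1 := hX 1
    rw [hX0] at e0
    rw [hX1] at e1
    calc R ^ 2 * a 2 ^ 2 = (R * a 0) ^ 2 + (R * a 1) ^ 2 := by rw [← hpy]; ring
      _ = ((D 0 2 : ℝ) ^ 2 + (D 1 2 : ℝ) ^ 2) * a 2 ^ 2 := by rw [← e0, ← e1]; ring
  have hpos : ∀ k : Fin 3, ∀ m : ℕ, X k = m * a 2 → 0 < m := by
    intro k m hm
    rcases Nat.eq_zero_or_pos m with rfl | h3
    · have := h.X_pos k
      rw [hm] at this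
      simp at this
    · exact h3
  refine excX_of (x := ![(D 0 2 : ℝ), D 1 2, √((D 0 2 : ℝ)^2 + (D 1 2 : ℝ)^2)]) ?_ (a 2) ha2 ?_
  · left
    refine ⟨D 0 2, D 1 2, hpos 0 _ hX0, hpos 1 _ hX1, ?_, rfl⟩
    have : D 0 2 ^ 2 + D 1 2 ^ 2 = n := by
      have h5 : ((D 0 2 ^ 2 + D 1 2 ^ 2 : ℕ) : ℝ) = n := by
        push_cast
        rw [← hsq, hR2]
      exact_mod_cast h5
    rw [this]
    exact hn
  · intro k
    fin_cases k
    · simp [hX0]; ring
    · simp [hX1]; ring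
    · simp only [Fin.reduceFinMk, Matrix.cons_val]
      rw [← hsq, Real.sqrt_sq hR0.le, hX 2]
      ring

end Pool.Agent.Helper64.Sq
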