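import Pool.Agent.Helper64.Sq.N1

/-!
# Module N: rational numbers
-/

open scoped Real

namespace Pool.Agent.Helper64.Sq

open Pool.Agent.Helper27.Sq

/-- the rational numbers inside `ℝ` -/
noncomputable def QQ : Subfield ℝ := (algebraMap ℚ ℝ).fieldRange

theorem mem_QQ {x : ℝ} : x ∈ QQ ↔ ∃ q : ℚ, (q : ℝ) = x := by
  simp [QQ, RingHom.mem_fieldRange]

theorem rat_mem (q : ℚ) : (q : ℝ) ∈ QQ := mem_QQ.mpr ⟨q, rfl⟩

theorem nat_mem (m : ℕ) : (m : ℝ) ∈ QQ := natCast_mem QQ m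

theorem int_mem (m : ℤ) : (m : ℝ) ∈ QQ := intCast_mem QQ m

theorem sq_contra {n N : ℕ} (hn : ¬ IsSquare n) {R b : ℝ} (hR : R ∈ QQ) (hb : b ∈ QQ)
    (hb0 : b ≠ 0) (h : (n : ℝ) * b ^ 2 = R ^ 2 * N) : ¬ IsSquare N := by
  rintro ⟨k, hk⟩
  apply hn
  have h1 : R * k / b ∈ QQ := div_mem (mul_mem hR (nat_mem k)) hb
  obtain ⟨q, hq⟩ := mem_QQ.mp h1
  have h2 : (n : ℝ) = (q : ℝ) * q := by
    rw [hq]
    field_simp
    rw [h, hk]
    push_cast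
    ring
  have h3 : (n : ℚ) = q * q := by exact_mod_cast h2
  have h4 : IsSquare (n : ℚ) := ⟨q, h3⟩
  exact Rat.isSquare_natCast_iff.mp h4

theorem sq_contra' {n : ℕ} (hn : ¬ IsSquare n) {R : ℝ} (hR : R ∈ QQ) (q : ℚ)
    (h : (n : ℝ) = R ^ 2 * (q : ℝ)) : ¬ IsSquare q := by
  rintro ⟨k, hk⟩
  apply hn
  have h1 : R * k ∈ QQ := mul_mem hR (rat_mem k)
  obtain ⟨q', hq⟩ := mem_QQ.mp h1
  have h2 : (n : ℝ) = (q' : ℝ) * q' := by
    rw [hq, h, hk]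
    push_cast
    ring
  have h3 : (n : ℚ) = q' * q' := by exact_mod_cast h2
  have h4 : IsSquare (n : ℚ) := ⟨q', h3⟩
  exact Rat.isSquare_natCast_iff.mp h4

/-- comparison of coefficients -/
theorem irr_coeff {s p q : ℝ} (hs : s ∉ QQ) (hp : p ∈ QQ) (hq : q ∈ QQ) (h : p * s = q) :
    p = 0 ∧ q = 0 := by
  by_cases hp0 : p = 0
  · rw [hp0, zero_mul] at h
    exact ⟨hp0, h.symm⟩
  · exfalso
    apply hs
    have : s = q / p := by
      field_simp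
      linarith
    rw [this]
    exact div_mem hq hp

theorem int_abc {A C : ℝ} (hA : A ∈ QQ) (hC : C ∈ QQ) (hA0 : 0 < A) (hC0 : 0 < C)
    (h : C ^ 2 = A ^ 2 + A + 1) :
    ∃ a b c : ℕ, 0 < a ∧ 0 < b ∧ c ^ 2 = a ^ 2 + a * b + b ^ 2 ∧ (a : ℝ) = A * b ∧
      (c : ℝ) = C * b := by
  obtain ⟨p, hp⟩ := mem_QQ.mp hA
  obtain ⟨q, hq⟩ := mem_QQ.mp hC
  have hp0 : 0 < p := by
    rw [← hp] at hA0
    exact_mod_cast hA0
  have hq0 : 0 < q := by
    rw [← hq] at hC0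
    exact_mod_cast hC0
  have hpn : 0 < p.num := Rat.num_pos.mpr hp0
  have hqn : 0 < q.num := Rat.num_pos.mpr hq0
  obtain ⟨p', hp'⟩ := Int.eq_ofNat_of_zero_le hpn.le
  obtain ⟨q', hq'⟩ := Int.eq_ofNat_of_zero_le hqn.le
  have e1 : (p : ℝ) * p.den = p' := by
    have : (p : ℚ) * p.den = p' := by
      rw [Rat.mul_den_eq_num, hp']
      rfl
    exact_mod_cast this
  have e2 : (q : ℝ) * q.den = q' := by
    have : (q : ℚ) * q.den = q' := by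
      rw [Rat.mul_den_eq_num, hq']
      rfl
    exact_mod_cast this
  rw [hp] at e1
  rw [hq] at e2
  have d1 := p.den_pos
  have d2 := q.den_pos
  have ea : ((p' * q.den : ℕ) : ℝ) = A * (p.den * q.den : ℕ) := by
    push_cast
    rw [← e1]
    ring
  have ec : ((q' * p.den : ℕ) : ℝ) = C * (p.den * q.den : ℕ) := by
    push_cast
    rw [← e2]
    ring
  refine ⟨p' * q.den, p.den * q.den, q' * p.den, ?_, Nat.mul_pos d1 d2, ?_, ea, ec⟩
  · have : 0 < p' := by omega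
    exact Nat.mul_pos this d2
  · have h5 : (((q' * p.den) ^ 2 : ℕ) : ℝ) = (((p' * q.den) ^ 2 + p' * q.den * (p.den * q.den)
        + (p.den * q.den) ^ 2 : ℕ) : ℝ) := by
      have e3 : (((q' * p.den) ^ 2 : ℕ) : ℝ) = ((q' * p.den : ℕ) : ℝ) ^ 2 := by push_cast; ring
      have e4 : (((p' * q.den) ^ 2 + p' * q.den * (p.den * q.den)
        + (p.den * q.den) ^ 2 : ℕ) : ℝ) = ((p' * q.den : ℕ) : ℝ) ^ 2 +
          ((p' * q.den : ℕ) : ℝ) * ((p.den * q.den : ℕ) : ℝ) + ((p.den * q.den : ℕ) : ℝ) ^ 2 := by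
        push_cast; ring
      rw [e3, e4, ea, ec, mul_pow, h]
      ring
    exact_mod_cast h5

end Pool.Agent.Helper64.Sq
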