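import Pool.Agent.Helper64.Sq.N2

/-!
# Module N: the families F1 and F2
-/

open scoped Real

namespace Pool.Agent.Helper64.Sq

open Pool.Agent.Helper27.Sq

variable {n : ℕ} {a t X th : Fin 3 → ℝ} {M D : Fin 3 → Fin 3 → ℕ}

/-- the tile in the case `3 α + 2 β = π` -/
theorem F_data (h : Facts n a t X th M D) (hPQ : (3:ℝ) * t 0 + 2 * t 1 = π) :
    ∃ s : ℝ, 0 < s ∧ s < 1 ∧ a 0 = s * a 2 ∧ a 1 = (1 - s^2) * a 2 ∧
      Real.sin (t 0) = s * Real.sin (t 2) ∧ Real.sin (t 1) = (1 - s^2) * Real.sin (t 2) ∧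
      Real.sin (2 * t 0) = (2 - s^2) * Real.sin (t 0) ∧
      Real.sin (2 * t 1) = (1 - s^2) * (3 - s^2) * Real.sin (t 0) := by
  obtain ⟨κ, hκ, hs⟩ := h.sin_t
  have h0 := h.t_pos 0
  have h1 := h.t_pos 1
  have h2 := h.t_pos 2
  have hsum := h.t_sum
  set φ := t 0 / 2 with hφ
  have e0 : t 0 = 2 * φ := by rw [hφ]; ring
  have e1 : t 1 = π / 2 - 3 * φ := by rw [hφ]; linarith
  have e2 : t 2 = φ + π / 2 := by rw [hφ]; linarith
  have s0 : Real.sin (t 0) = 2 * Real.sin φ * Real.cos φ := by rw [e0, Real.sin_two_mul]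
  have s1 : Real.sin (t 1) = 4 * Real.cos φ ^ 3 - 3 * Real.cos φ := by
    rw [e1, Real.sin_pi_div_two_sub, Real.cos_three_mul]
  have s2 : Real.sin (t 2) = Real.cos φ := by rw [e2, Real.sin_add_pi_div_two]
  have hc : 0 < Real.cos φ := by rw [← s2]; exact sin_t_pos h 2
  have hsp : 0 < Real.sin φ := by
    have := sin_t_pos h 0
    rw [s0] at this
    by_contra hcon
    push Not at hcon
    nlinarith
  have hsc := Real.sin_sq_add_cos_sq φ
  have hq1 : Real.sin (t 0) = (2 * Real.sin φ) * Real.sin (t 2) := by rw [s0, s2]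
  have hq2 : Real.sin (t 1) = (1 - (2 * Real.sin φ) ^ 2) * Real.sin (t 2) := by
    rw [s1, s2]
    linear_combination (-4 * Real.cos φ) * (-hsc)
  have hs1 : 2 * Real.sin φ < 1 := by
    have := sin_t_pos h 1
    rw [hq2, s2] at this
    have h3 : 0 < 1 - (2 * Real.sin φ) ^ 2 := by
      by_contra hcon
      push Not at hcon
      nlinarith
    nlinarith
  refine ⟨2 * Real.sin φ, by linarith, hs1, ?_, ?_, hq1, hq2, ?_, ?_⟩
  · rw [hs 0, hs 2] at hq1
    apply mul_left_cancel₀ hκ.ne'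
    linarith
  · rw [hs 1, hs 2] at hq2
    apply mul_left_cancel₀ hκ.ne'
    linarith
  · rw [Real.sin_two_mul]
    have : Real.cos (t 0) = 1 - 2 * Real.sin φ ^ 2 := by
      rw [e0, Real.cos_two_mul]
      linarith
    rw [this]
    ring
  · have e3 : 2 * t 1 = π - 3 * t 0 := by linarith
    rw [e3, Real.sin_pi_sub, Real.sin_three_mul]
    have h4 : Real.sin (t 0) ^ 2 = (2 * Real.sin φ) ^ 2 * Real.cos φ ^ 2 := by rw [s0]; ring
    have h5 : Real.cos φ ^ 2 = 1 - Real.sin φ ^ 2 := by linarith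
    have h6 : 3 * Real.sin (t 0) - 4 * Real.sin (t 0) ^ 3
        = (3 - 4 * Real.sin (t 0) ^ 2) * Real.sin (t 0) := by ring
    rw [h6, h4, h5]
    ring

theorem family_F1 (h : Facts n a t X th M D) (hn : ¬ IsSquare n)
    (hPQ : (3:ℝ) * t 0 + 2 * t 1 = π)
    (hind : ∀ m m' : ℤ, (m:ℝ) * t 0 + m' * t 1 = 0 → m = 0 ∧ m' = 0)
    (h0 : Row M 0 2 0) (h1 : Row M 1 0 2) (h2 : Row M 2 1 0) : ExcX X := by
  obtain ⟨s, hs0, hs1, ha0, ha1, q0, q1, q2, q3⟩ := F_data h hPQ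
  have hsq : s^2 < 1 := by nlinarith
  have w1 : (1 - s) * (2 + s) ≠ 0 := (mul_pos (by linarith) (by linarith)).ne'
  have w2 : (1 + s) * (2 - s) ≠ 0 := (mul_pos (by linarith) (by linarith)).ne'
  have w3 : (1 - s^2) ≠ 0 := by intro h; linarith
  have w4 : 0 < 2 - s^2 := by linarith
  obtain ⟨κ', hκ', hs'⟩ := h.sin_th
  have th0 : th 0 = 2 * t 0 := by rw [h.ang 0, h0.1, h0.2.1, h0.2.2]; push_cast; ring
  have th1 : th 1 = 2 * t 1 := by rw [h.ang 1, h1.1, h1.2.1, h1.2.2]; push_cast; ring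
  have th2 : th 2 = t 0 := by rw [h.ang 2, h2.1, h2.2.1, h2.2.2]; push_cast; ring
  have X2 : Real.sin (t 0) = κ' * X 2 := by rw [← hs' 2, th2]
  have X0 : X 0 = (2 - s^2) * X 2 := by
    have := hs' 0
    rw [th0, q2, X2] at this
    apply mul_left_cancel₀ hκ'.ne'
    linarith
  have X1 : X 1 = (1 - s^2) * (3 - s^2) * X 2 := by
    have := hs' 1
    rw [th1, q3, X2] at this
    apply mul_left_cancel₀ hκ'.ne'
    linarith
  have hc := h.a_pos 2
  have hr := h.X_pos 2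
  -- the area
  have harea : X 2 ^ 2 * ((2 - s^2) * (3 - s^2)) = n * a 2 ^ 2 := by
    have h3 := h.area 2 0
    rw [th2] at h3
    have h4 : X 0 * X 1 = n * (a 1 * a 2) := by
      apply mul_right_cancel₀ (sin_t_pos h 0).ne'
      have : X (2+1) * X (2+2) * Real.sin (t 0) = n * (a (0+1) * a (0+2) * Real.sin (t 0)) := h3
      simp only [Fin.reduceAdd, zero_add] at this
      linarith
    rw [X0, X1, ha1] at h4
    apply mul_left_cancel₀ w3
    linear_combination h4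
  -- the colourings
  have hPQ' : ((3:ℕ):ℝ) * t 0 + ((2:ℕ):ℝ) * t 1 = π := by push_cast; exact hPQ
  obtain ⟨K1, hK1⟩ := colour h 3 2 hPQ' hind (-1) 1 (by decide)
  obtain ⟨K2, hK2⟩ := colour h 3 2 hPQ' hind (-1) (-1) (by decide)
  rw [h0.1, h0.2.1, h0.2.2, h1.1, h1.2.1, h1.2.2] at hK1 hK2
  norm_num at hK1 hK2
  rw [X0, X1, ha0, ha1] at hK1 hK2
  have e1 : (K1:ℝ) * a 2 = - (X 2 * ((1 + s) * (2 - s))) := by
    apply mul_left_cancel₀ w1
    linear_combination hK1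
  have e2 : (K2:ℝ) * a 2 = - (X 2 * ((1 - s) * (2 + s))) := by
    apply mul_left_cancel₀ w2
    linear_combination hK2
  set R := X 2 / a 2 with hR
  have hR0 : 0 < R := div_pos hr hc
  have hXR : X 2 = R * a 2 := by rw [hR]; field_simp
  rw [hXR] at e1 e2 harea
  have f1 : (K1:ℝ) = - (R * ((1 + s) * (2 - s))) := by
    apply mul_right_cancel₀ hc.ne'; linarith
  have f2 : (K2:ℝ) = - (R * ((1 - s) * (2 + s))) := by
    apply mul_right_cancel₀ hc.ne'; linarith
  have f3 : R ^ 2 * ((2 - s^2) * (3 - s^2)) = n := by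
    apply mul_right_cancel₀ (pow_pos hc 2).ne'; linarith
  have hX'0 : R * (2 - s^2) ≠ 0 := (mul_pos hR0 w4).ne'
  have hX' : R * (2 - s^2) ∈ QQ := by
    have : R * (2 - s^2) = -((K1:ℝ) + K2) / 2 := by rw [f1, f2]; ring
    rw [this]
    exact div_mem (neg_mem (add_mem (int_mem _) (int_mem _))) (by exact_mod_cast nat_mem 2)
  have hRQ : R ∈ QQ := by
    have : R = n / (R * (2 - s^2)) - R * (2 - s^2) := by
      field_simp
      linear_combination f3
    rw [this]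
    exact sub_mem (div_mem (nat_mem _) hX') hX'
  have hsQ : s ∈ QQ := by
    have : s = ((K2:ℝ) - K1) / (2 * R) := by rw [f1, f2]; field_simp; ring
    rw [this]
    exact div_mem (sub_mem (int_mem _) (int_mem _)) (mul_mem (by exact_mod_cast nat_mem 2) hRQ)
  obtain ⟨q, hq⟩ := mem_QQ.mp hsQ
  refine excX_of (x := ![2 - (q:ℝ)^2, (1 - (q:ℝ)^2) * (3 - (q:ℝ)^2), 1]) ?_ (X 2) hr ?_
  · right; right; left
    refine ⟨q, ?_, ?_, Or.inl ⟨?_, rfl⟩⟩
    · rw [← hq] at hs0; exact_mod_cast hs0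
    · rw [← hq] at hs1; exact_mod_cast hs1
    · apply sq_contra' hn hRQ
      rw [← f3, ← hq]
      push_cast
      ring
  · rw [hq]
    intro k
    fin_cases k
    · simp [X0]; ring
    · simp [X1]; ring
    · simp

theorem family_F2 (h : Facts n a t X th M D) (hn : ¬ IsSquare n)
    (hPQ : (3:ℝ) * t 0 + 2 * t 1 = π)
    (hind : ∀ m m' : ℤ, (m:ℝ) * t 0 + m' * t 1 = 0 → m = 0 ∧ m' = 0)
    (h0 : Row M 0 2 0) (h1 : Row M 1 1 1) (h2 : Row M 2 0 1) : ExcX X := by
  obtain ⟨s, hs0, hs1, ha0, ha1, q0, q1, q2, q3⟩ := F_data h hPQ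
  have hsq : s^2 < 1 := by nlinarith
  have w1 : (1 - s) * (2 + s) ≠ 0 := (mul_pos (by linarith) (by linarith)).ne'
  have w2 : (1 + s) * (2 - s) ≠ 0 := (mul_pos (by linarith) (by linarith)).ne'
  have w3 : (1 - s^2) ≠ 0 := by intro h; linarith
  have w4 : 0 < 2 - s^2 := by linarith
  obtain ⟨κ', hκ', hs'⟩ := h.sin_th
  have th0 : th 0 = 2 * t 0 := by rw [h.ang 0, h0.1, h0.2.1, h0.2.2]; push_cast; ring
  have th1 : th 1 = t 0 + t 1 := by rw [h.ang 1, h1.1, h1.2.1, h1.2.2]; push_cast; ring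
  have th2 : th 2 = t 1 := by rw [h.ang 2, h2.1, h2.2.1, h2.2.2]; push_cast; ring
  have X1' : Real.sin (t 2) = κ' * X 1 := by
    rw [← hs' 1, th1, ← Real.sin_pi_sub]
    congr 1
    have := h.t_sum
    linarith
  have X0 : X 0 = s * (2 - s^2) * X 1 := by
    have := hs' 0
    rw [th0, q2, q0, X1'] at this
    apply mul_left_cancel₀ hκ'.ne'
    linarith
  have X2 : X 2 = (1 - s^2) * X 1 := by
    have := hs' 2
    rw [th2, q1, X1'] at this
    apply mul_left_cancel₀ hκ'.ne'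
    linarith
  have hc := h.a_pos 2
  have hr := h.X_pos 1
  -- the area
  have harea : X 1 ^ 2 * (2 - s^2) = n * a 2 ^ 2 := by
    have h3 := h.area 2 1
    rw [th2] at h3
    have h4 : X 0 * X 1 = n * (a 2 * a 0) := by
      apply mul_right_cancel₀ (sin_t_pos h 1).ne'
      have : X (2+1) * X (2+2) * Real.sin (t 1) = n * (a (1+1) * a (1+2) * Real.sin (t 1)) := h3
      simp only [Fin.reduceAdd] at this
      linarith
    rw [X0, ha0] at h4
    apply mul_left_cancel₀ hs0.ne'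
    linear_combination h4
  -- the colouring
  have hPQ' : ((3:ℕ):ℝ) * t 0 + ((2:ℕ):ℝ) * t 1 = π := by push_cast; exact hPQ
  obtain ⟨K, hK⟩ := colour h 3 2 hPQ' hind (-1) 1 (by decide)
  rw [h0.1, h0.2.1, h0.2.2, h1.1, h1.2.1, h1.2.2] at hK
  norm_num at hK
  rw [X0, X2, ha0, ha1] at hK
  have e1 : (K:ℝ) * a 2 = X 1 * s := by
    apply mul_left_cancel₀ w1
    linear_combination hK
  set R := X 1 / a 2 with hR
  have hR0 : 0 < R := div_pos hr hc
  have hXR : X 1 = R * a 2 := by rw [hR]; field_simp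
  have f1 : (K:ℝ) = R * s := by
    apply mul_right_cancel₀ hc.ne'; rw [e1, hXR]; ring
  have f3 : R ^ 2 * (2 - s^2) = n := by
    rw [hXR] at harea
    apply mul_right_cancel₀ (pow_pos hc 2).ne'; linarith
  have hK0 : (K:ℝ) ≠ 0 := by rw [f1]; positivity
  -- `s²` is rational
  have hs2 : s ^ 2 ∈ QQ := by
    have h6 : (n:ℝ) + K^2 ≠ 0 := by positivity
    have : s ^ 2 = 2 * K^2 / (n + K^2) := by
      rw [eq_div_iff h6, ← f3, f1]
      ring
    rw [this]
    exact div_mem (mul_mem (by exact_mod_cast nat_mem 2) (pow_mem (int_mem _) 2))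
      (add_mem (nat_mem _) (pow_mem (int_mem _) 2))
  have hsQ : s ∈ QQ := by
    by_contra hsQ
    have hsid := h.sid 1
    rw [ha0, ha1, hXR] at hsid
    have g1 : R = D 1 0 * s + D 1 1 * (1 - s^2) + D 1 2 := by
      apply mul_right_cancel₀ hc.ne'
      rw [hsid]; ring
    have g2 : R = K / s^2 * s := by rw [f1]; field_simp
    have g3 : ((K:ℝ) / s^2 - D 1 0) * s = D 1 1 * (1 - s^2) + D 1 2 := by
      rw [sub_mul, ← g2, g1]; ring
    obtain ⟨g4, g5⟩ := irr_coeff hsQ (sub_mem (div_mem (int_mem _) hs2) (nat_mem _))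
      (add_mem (mul_mem (nat_mem _) (sub_mem (one_mem _) hs2)) (nat_mem _)) g3
    have h7 : 0 < 1 - s^2 := by linarith
    have g6 : (0:ℝ) ≤ D 1 1 * (1 - s^2) := by positivity
    have g7 : (0:ℝ) ≤ D 1 2 := by positivity
    have d2 : D 1 2 = 0 := by
      have : (D 1 2 : ℝ) = 0 := by linarith
      exact_mod_cast this
    have d1 : D 1 1 = 0 := by
      have h8 : (D 1 1 : ℝ) * (1 - s^2) = 0 := by linarith
      have : (D 1 1 : ℝ) = 0 := (mul_eq_zero.mp h8).resolve_right h7.ne'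
      exact_mod_cast this
    obtain ⟨j, e, j', e', c1, c2, c3, c4, c5, c6, c7⟩ := h.ce 0
    have hj : j = 0 := by
      fin_cases j
      · rfl
      · exact absurd h0.2.1 c3
      · exact absurd h0.2.2 c3
    subst hj
    rw [zero_add] at c5
    fin_cases e
    · exact c1 rfl
    · exact c5 d1
    · exact c5 d2
  have hRQ : R ∈ QQ := by
    have : R = K / s := by rw [f1]; field_simp
    rw [this]
    exact div_mem (int_mem _) hsQ
  obtain ⟨q, hq⟩ := mem_QQ.mp hsQ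
  refine excX_of (x := ![(q:ℝ) * (2 - (q:ℝ)^2), 1, 1 - (q:ℝ)^2]) ?_ (X 1) hr ?_
  · right; right; left
    refine ⟨q, ?_, ?_, Or.inr ⟨?_, rfl⟩⟩
    · rw [← hq] at hs0; exact_mod_cast hs0
    · rw [← hq] at hs1; exact_mod_cast hs1
    · apply sq_contra' hn hRQ
      rw [← f3, ← hq]
      push_cast
      ring
  · rw [hq]
    intro k
    fin_cases k
    · simp [X0]; ring
    · simp
    · simp [X2]; ring

end Pool.Agent.Helper64.Sq
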