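import Pool.Agent.Helper64.Sq.N2

/-!
# Module N: the families G1 - G4
-/

open scoped Real

namespace Pool.Agent.Helper64.Sq

open Pool.Agent.Helper27.Sq

variable {n : ℕ} {a t X th : Fin 3 → ℝ} {M D : Fin 3 → Fin 3 → ℕ}

/-- the tile in the case `3 α + 3 β = π`, with `A = a/b`, `C = c/b` -/
theorem G_data (h : Facts n a t X th M D) (hPQ : (3:ℝ) * t 0 + 3 * t 1 = π) :
    ∃ A C κ κ' : ℝ, 0 < A ∧ 1 < C ∧ A < C ∧ C < A + 1 ∧ C ^ 2 = A ^ 2 + A + 1 ∧
      a 0 = A * a 1 ∧ a 2 = C * a 1 ∧ 0 < κ ∧ 0 < κ' ∧ (∀ k, Real.sin (th k) = κ' * X k) ∧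
      Real.sin (t 0) = κ * (A * a 1) ∧ Real.sin (t 1) = κ * a 1 ∧
      Real.sin (t 2) = κ * (C * a 1) ∧ Real.sin (t 0 + t 1) = κ * (C * a 1) ∧
      C * Real.sin (2 * t 0) = κ * (A * (A + 2) * a 1) ∧
      C * Real.sin (2 * t 1) = κ * ((2 * A + 1) * a 1) ∧
      C ^ 2 * Real.sin (3 * t 0) = κ * (3 * A * (A + 1) * a 1) ∧
      Real.sin (2 * t 0 + t 1) = κ * ((A + 1) * a 1) := by
  obtain ⟨κ, hκ, hs⟩ := h.sin_t
  obtain ⟨κ', hκ', hs'⟩ := h.sin_th
  have b0 := h.a_pos 0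
  have b1 := h.a_pos 1
  have b2 := h.a_pos 2
  have hsum := h.t_sum
  have e01 : t 0 + t 1 = π / 3 := by linarith
  have s01 : Real.sin (t 0 + t 1) = Real.sin (t 2) := by
    rw [← Real.sin_pi_sub]
    congr 1
    linarith
  have c01 : Real.cos (t 0 + t 1) = 1 / 2 := by rw [e01, Real.cos_pi_div_three]
  have s0 : Real.sin (t 0) = Real.sin (t 0 + t 1) * Real.cos (t 1)
      - Real.cos (t 0 + t 1) * Real.sin (t 1) := by
    rw [← Real.sin_sub]; congr 1; ring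
  have s1 : Real.sin (t 1) = Real.sin (t 0 + t 1) * Real.cos (t 0)
      - Real.cos (t 0 + t 1) * Real.sin (t 0) := by
    rw [← Real.sin_sub]; congr 1; ring
  set A := a 0 / a 1 with hA
  set C := a 2 / a 1 with hC
  have hA0 : 0 < A := div_pos b0 b1
  have hC0 : 0 < C := div_pos b2 b1
  have ha0 : a 0 = A * a 1 := by rw [hA]; field_simp
  have ha2 : a 2 = C * a 1 := by rw [hC]; field_simp
  have S0 : Real.sin (t 0) = κ * (A * a 1) := by rw [hs 0, ha0]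
  have S1 : Real.sin (t 1) = κ * a 1 := hs 1
  have S2 : Real.sin (t 2) = κ * (C * a 1) := by rw [hs 2, ha2]
  have S01 : Real.sin (t 0 + t 1) = κ * (C * a 1) := by rw [s01, S2]
  have hκa : κ * a 1 ≠ 0 := (mul_pos hκ b1).ne'
  -- cosines
  have C1 : C * Real.cos (t 1) = A + 1 / 2 := by
    rw [S01, c01, S0, S1] at s0
    apply mul_left_cancel₀ hκa
    linear_combination -s0
  have C0 : C * Real.cos (t 0) = 1 + A / 2 := by
    rw [S01, c01, S0, S1] at s1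
    apply mul_left_cancel₀ hκa
    linear_combination -s1
  -- law of cosines
  have hC2 : C ^ 2 = A ^ 2 + A + 1 := by
    have h1 := Real.sin_sq_add_cos_sq (t 0 + t 1)
    rw [S01, c01] at h1
    have h2 := Real.sin_sq_add_cos_sq (t 1)
    rw [S1] at h2
    have h3 : (κ * a 1) ^ 2 * C ^ 2 = 3 / 4 := by linear_combination h1
    have h4 : C ^ 2 * (κ * a 1) ^ 2 + (A + 1/2) ^ 2 = C ^ 2 := by
      rw [← C1]
      linear_combination C ^ 2 * h2
    linear_combination -h4 + h3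
  have hC1 : 1 < C := by nlinarith
  have hAC : A < C := by nlinarith
  have hCA : C < A + 1 := by nlinarith
  refine ⟨A, C, κ, κ', hA0, hC1, hAC, hCA, hC2, ha0, ha2, hκ, hκ', hs', S0, S1, S2, S01, ?_, ?_,
    ?_, ?_⟩
  · rw [Real.sin_two_mul]
    rw [S0]
    linear_combination (2 * κ * (A * a 1)) * C0
  · rw [Real.sin_two_mul]
    rw [S1]
    linear_combination (2 * κ * a 1) * C1
  · have e3 : 3 * t 0 = π - 3 * t 1 := by linarith
    rw [e3, Real.sin_pi_sub, Real.sin_three_mul]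
    have h2 := Real.sin_sq_add_cos_sq (t 1)
    have h5 : C ^ 2 * (3 * Real.sin (t 1) - 4 * Real.sin (t 1) ^ 3) =
        Real.sin (t 1) * (4 * (C * Real.cos (t 1)) ^ 2 - C ^ 2) := by
      linear_combination (-4 * C^2 * Real.sin (t 1)) * h2
    rw [h5, C1, S1]
    linear_combination (-(κ * a 1)) * hC2
  · have e4 : 2 * t 0 + t 1 = t 0 + (t 0 + t 1) := by ring
    rw [e4, Real.sin_add, c01, S0, S01]
    linear_combination (κ * a 1) * C0

/-- the two colourings in the case `3 α + 3 β = π` -/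
theorem G_colour (h : Facts n a t X th M D) (hPQ : (3:ℝ) * t 0 + 3 * t 1 = π)
    (hind : ∀ m m' : ℤ, (m:ℝ) * t 0 + m' * t 1 = 0 → m = 0 ∧ m' = 0) (x : ℤˣ) :
    ∃ K : ℤ, (K : ℝ) * (a 2 + ((x : ℤ) : ℝ) * a 0 - ((x : ℤ) : ℝ) * a 1)
      = X 2 - (((x ^ M 1 0 * (-x) ^ M 1 1 * (1:ℤˣ) ^ M 1 2 : ℤˣ) : ℤ) : ℝ) * X 0
        - (((x ^ M 0 0 * (-x) ^ M 0 1 * (1:ℤˣ) ^ M 0 2 : ℤˣ) : ℤ) : ℝ) * X 1 := by
  have hPQ' : ((3:ℕ):ℝ) * t 0 + ((3:ℕ):ℝ) * t 1 = π := by push_cast; exact hPQ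
  obtain ⟨K, hK⟩ := colour h 3 3 hPQ' hind x (-x) (by
    rcases Int.units_eq_one_or x with rfl | rfl <;> decide)
  refine ⟨K, ?_⟩
  have e : (-(x * -x) : ℤˣ) = 1 := by
    rcases Int.units_eq_one_or x with rfl | rfl <;> decide
  rw [e] at hK
  rw [← hK]
  push_cast
  ring

/-- the end of the argument: everything is rational -/
theorem G_end {A C lam : ℝ} (hA0 : 0 < A) (hC1 : 1 < C) (hC2 : C ^ 2 = A ^ 2 + A + 1)
    (hA : A ∈ QQ) (hC : C ∈ QQ) (hlam : 0 < lam) {R : ℝ} (hR : R ∈ QQ)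
    (hn : ¬ IsSquare n)
    (hX : ((∀ k, X k = lam * ![3 * A * (A + 1), C * (2 * A + 1), C ^ 2] k) ∧
        (n : ℝ) = R ^ 2 * (3 * (A + 1) * (2 * A + 1))) ∨
      ((∀ k, X k = lam * ![A + 1, C, 1] k) ∧ (n : ℝ) = R ^ 2 * (A * (A + 1))) ∨
      ((∀ k, X k = lam * ![C * (A + 1), 2 * A + 1, A * C] k) ∧
        (n : ℝ) = R ^ 2 * ((A + 1) * (2 * A + 1))) ∨
      ((∀ k, X k = lam * ![A * (A + 2), 2 * A + 1, C ^ 2] k) ∧
        (n : ℝ) = R ^ 2 * ((2 * A + 1) * (A + 2)))) : ExcX X := by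
  obtain ⟨p, b, c, hp, hb, habc, hpA, hcC⟩ := int_abc hA hC hA0 (by linarith) hC2
  have hb' : (b:ℝ) ≠ 0 := by exact_mod_cast hb.ne'
  have hb'' : (0:ℝ) < b := by exact_mod_cast hb
  rcases hX with ⟨hX, hN⟩ | ⟨hX, hN⟩ | ⟨hX, hN⟩ | ⟨hX, hN⟩
  · refine excX_of (x := ![3 * (p:ℝ) * (p+b), (c:ℝ) * (2*p+b), (c:ℝ)^2]) ?_ (lam / b^2)
      (by positivity) ?_
    · right; right; right
      refine ⟨p, b, c, hp, hb, habc, Or.inl ⟨?_, rfl⟩⟩
      refine sq_contra hn hR (nat_mem b) hb' ?_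
      rw [hN]
      push_cast
      rw [hpA]
      ring
    · intro k
      rw [hX k, hpA, hcC]
      fin_cases k <;> simp <;> field_simp
  · refine excX_of (x := ![(p:ℝ) + b, c, b]) ?_ (lam / b) (by positivity) ?_
    · right; right; right
      refine ⟨p, b, c, hp, hb, habc, Or.inr (Or.inl ⟨?_, rfl⟩)⟩
      refine sq_contra hn hR (nat_mem b) hb' ?_
      rw [hN]
      push_cast
      rw [hpA]
      ring
    · intro k
      rw [hX k, hpA, hcC]
      fin_cases k <;> simp <;> field_simp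
  · refine excX_of (x := ![(c:ℝ) * (p+b), (b:ℝ) * (2*p+b), (p:ℝ) * c]) ?_ (lam / b^2)
      (by positivity) ?_
    · right; right; right
      refine ⟨p, b, c, hp, hb, habc, Or.inr (Or.inr (Or.inl ⟨?_, rfl⟩))⟩
      refine sq_contra hn hR (nat_mem b) hb' ?_
      rw [hN]
      push_cast
      rw [hpA]
      ring
    · intro k
      rw [hX k, hpA, hcC]
      fin_cases k <;> simp <;> field_simp
  · refine excX_of (x := ![(p:ℝ) * (p+2*b), (b:ℝ) * (2*p+b), (c:ℝ)^2]) ?_ (lam / b^2)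
      (by positivity) ?_
    · right; right; right
      refine ⟨p, b, c, hp, hb, habc, Or.inr (Or.inr (Or.inr ⟨?_, rfl⟩))⟩
      refine sq_contra hn hR (nat_mem b) hb' ?_
      rw [hN]
      push_cast
      rw [hpA]
      ring
    · intro k
      rw [hX k, hpA, hcC]
      fin_cases k <;> simp <;> field_simp

end Pool.Agent.Helper64.Sq
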