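import Pool.Agent.Helper64.Sq.NG

/-!
# Module N: the algebra of the families G1 - G4
-/

open scoped Real

namespace Pool.Agent.Helper64.Sq

open Pool.Agent.Helper27.Sq

theorem two_mem : (2:ℝ) ∈ QQ := by exact_mod_cast nat_mem 2
theorem three_mem : (3:ℝ) ∈ QQ := by exact_mod_cast nat_mem 3
theorem four_mem : (4:ℝ) ∈ QQ := by exact_mod_cast nat_mem 4

theorem A_of {A : ℝ} {n : ℕ} {K1 K2 : ℤ} (hn0 : (n:ℝ) ≠ 0)
    (h : (n:ℝ) = -(K1 * K2) * (2 * A + 1)) : A ∈ QQ := by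
  have h1 : ((K1:ℝ) * K2) ≠ 0 := by
    intro h2
    rw [h2] at h
    apply hn0
    rw [h]
    ring
  have h2 : 2 * A + 1 = -(n:ℝ) / (K1 * K2) := by
    rw [eq_div_iff h1]
    linarith
  have : A = (-(n:ℝ) / (K1 * K2) - 1) / 2 := by
    rw [← h2]
    ring
  rw [this]
  exact div_mem (sub_mem (div_mem (neg_mem (nat_mem _)) (mul_mem (int_mem _) (int_mem _)))
    (one_mem _)) two_mem

theorem G1_alg {A C R : ℝ} {n : ℕ} {K1 K2 : ℤ} (hA0 : 0 < A) (hC1 : 1 < C) (hAC : A < C)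
    (hCA : C < A + 1) (hC2 : C ^ 2 = A ^ 2 + A + 1) (hR0 : 0 < R)
    (h1 : (K1:ℝ) * (C - A + 1) = R * (C ^ 2 - 3 * A * (A + 1) + C * (2 * A + 1)))
    (h2 : (K2:ℝ) * (C + A - 1) = R * (C ^ 2 - 3 * A * (A + 1) - C * (2 * A + 1)))
    (hn : (n:ℝ) = R ^ 2 * (3 * (A + 1) * (2 * A + 1))) : A ∈ QQ ∧ C ∈ QQ ∧ R ∈ QQ := by
  have w1 : C - A + 1 ≠ 0 := by intro h; linarith
  have w2 : C + A - 1 ≠ 0 := by intro h; linarith
  have w3 : 0 < 2 - C + A := by linarith
  have f1 : (K1:ℝ) = R * (2 - C + A) := by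
    apply mul_right_cancel₀ w1
    rw [h1]
    linear_combination (2 * R) * hC2
  have f2 : (K2:ℝ) * (2 * C - 2 * A - 1) = -3 * R * (C - A) := by
    apply mul_right_cancel₀ w2
    linear_combination (2 * C - 2 * A - 1) * h2 + R * (2 * C - 6 * A - 3 + 3) * hC2
  have id1 : (A + 1) * (2 * C - 2 * A - 1) = (C - A) * (2 - C + A) := by
    linear_combination hC2
  have w4 : 2 * C - 2 * A - 1 ≠ 0 := by
    intro h
    rw [h, mul_zero] at id1
    exact (mul_pos (by linarith : 0 < C - A) w3).ne' id1.symm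
  have f3 : (n:ℝ) = -(K1 * K2) * (2 * A + 1) := by
    apply mul_right_cancel₀ w4
    have e1 : -((K1:ℝ) * K2) * (2 * A + 1) * (2 * C - 2 * A - 1)
        = -(K1 * ((K2:ℝ) * (2 * C - 2 * A - 1))) * (2 * A + 1) := by ring
    rw [e1, f2, f1, hn]
    linear_combination (3 * R^2 * (2 * A + 1)) * id1
  have hn0 : (n:ℝ) ≠ 0 := by rw [hn]; positivity
  have hA : A ∈ QQ := A_of hn0 f3
  have f4 : C * (3 * K1 + K2 * (4 * A + 5)) = 3 * K1 * A + K2 * (4 * A ^ 2 + 7 * A + 4) := by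
    linear_combination 3 * (C - A) * f1 + (2 - C + A) * f2 + 2 * (K2:ℝ) * hC2
  have hC : C ∈ QQ := by
    by_cases h0 : 3 * (K1:ℝ) + K2 * (4 * A + 5) = 0
    · exfalso
      rw [h0, mul_zero] at f4
      have h5 : (K2:ℝ) * (A + 2) = 0 := by linear_combination (-1/2) * f4 - (A / 2) * h0
      rcases mul_eq_zero.mp h5 with h6 | h6
      · rw [h6] at f3
        apply hn0
        rw [f3]
        ring
      · linarith
    · have : C = (3 * K1 * A + K2 * (4 * A ^ 2 + 7 * A + 4)) / (3 * (K1:ℝ) + K2 * (4 * A + 5)) := by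
        rw [eq_div_iff h0, f4]
      rw [this]
      have m5 : (5:ℝ) ∈ QQ := by exact_mod_cast nat_mem 5
      have m7 : (7:ℝ) ∈ QQ := by exact_mod_cast nat_mem 7
      exact div_mem (add_mem (mul_mem (mul_mem three_mem (int_mem _)) hA) (mul_mem (int_mem _)
        (add_mem (add_mem (mul_mem four_mem (pow_mem hA 2)) (mul_mem m7 hA)) four_mem)))
        (add_mem (mul_mem three_mem (int_mem _)) (mul_mem (int_mem _) (add_mem
          (mul_mem four_mem hA) m5)))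
  refine ⟨hA, hC, ?_⟩
  have : R = K1 / (2 - C + A) := by rw [f1]; field_simp
  rw [this]
  exact div_mem (int_mem _) (add_mem (sub_mem two_mem hC) hA)

theorem G3_alg {A C R : ℝ} {n : ℕ} {K1 K2 : ℤ} (hA0 : 0 < A) (hC1 : 1 < C) (hAC : A < C)
    (hCA : C < A + 1) (hC2 : C ^ 2 = A ^ 2 + A + 1) (hR0 : 0 < R)
    (h1 : (K1:ℝ) * (C - A + 1) = R * (A * C - C * (A + 1) - (2 * A + 1)))
    (h2 : (K2:ℝ) * (C + A - 1) = R * (A * C - C * (A + 1) + (2 * A + 1)))
    (hn : (n:ℝ) = R ^ 2 * ((A + 1) * (2 * A + 1))) : A ∈ QQ ∧ C ∈ QQ ∧ R ∈ QQ := by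
  have w1 : C - A + 1 ≠ 0 := by intro h; linarith
  have w2 : C + A - 1 ≠ 0 := by intro h; linarith
  have w3 : 0 < 2 - C + A := by linarith
  have w5 : 0 < C - A := by linarith
  have f1 : (K2:ℝ) = R * (C - A) := by
    apply mul_right_cancel₀ w2
    rw [h2]
    linear_combination (-R) * hC2
  have f2 : (K1:ℝ) * (2 * C - 2 * A - 1) = -R * (2 - C + A) := by
    apply mul_right_cancel₀ w1
    linear_combination (2 * C - 2 * A - 1) * h1 + (-3 * R) * hC2
  have id1 : (A + 1) * (2 * C - 2 * A - 1) = (C - A) * (2 - C + A) := by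
    linear_combination hC2
  have w4 : 2 * C - 2 * A - 1 ≠ 0 := by
    intro h
    rw [h, mul_zero] at id1
    exact (mul_pos w5 w3).ne' id1.symm
  have f3 : (n:ℝ) = -(K1 * K2) * (2 * A + 1) := by
    apply mul_right_cancel₀ w4
    have e1 : -((K1:ℝ) * K2) * (2 * A + 1) * (2 * C - 2 * A - 1)
        = -(K2 * ((K1:ℝ) * (2 * C - 2 * A - 1))) * (2 * A + 1) := by ring
    rw [e1, f2, f1, hn]
    linear_combination (R^2 * (2 * A + 1)) * id1
  have hn0 : (n:ℝ) ≠ 0 := by rw [hn]; positivity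
  have hA : A ∈ QQ := A_of hn0 f3
  have f4 : C * (K1 * (4 * A + 1) + K2) = K2 * (2 + A) + K1 * (4 * A ^ 2 + 3 * A + 2) := by
    linear_combination -(C - A) * f2 - (2 - C + A) * f1 + 2 * (K1:ℝ) * hC2
  have hC : C ∈ QQ := by
    by_cases h0 : (K1:ℝ) * (4 * A + 1) + K2 = 0
    · exfalso
      rw [h0, mul_zero] at f4
      have h5 : (K1:ℝ) * A = 0 := by linear_combination (1/6) * f4 + ((2 + A) / 6) * h0
      rcases mul_eq_zero.mp h5 with h6 | h6
      · rw [h6] at f3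
        apply hn0
        rw [f3]
        ring
      · linarith
    · have : C = (K2 * (2 + A) + K1 * (4 * A ^ 2 + 3 * A + 2)) / ((K1:ℝ) * (4 * A + 1) + K2) := by
        rw [eq_div_iff h0, f4]
      rw [this]
      exact div_mem (add_mem (mul_mem (int_mem _) (add_mem two_mem hA)) (mul_mem (int_mem _)
        (add_mem (add_mem (mul_mem four_mem (pow_mem hA 2)) (mul_mem three_mem hA)) two_mem)))
        (add_mem (mul_mem (int_mem _) (add_mem (mul_mem four_mem hA) (one_mem _))) (int_mem _))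
  refine ⟨hA, hC, ?_⟩
  have : R = K2 / (C - A) := by rw [f1]; field_simp
  rw [this]
  exact div_mem (int_mem _) (sub_mem hC hA)

/-- G2 without the rationality of `A` -/
theorem G2_alg {A C R : ℝ} {K1 K2 : ℤ} (hA0 : 0 < A) (hC1 : 1 < C) (hAC : A < C)
    (hC2 : C ^ 2 = A ^ 2 + A + 1) (hR0 : 0 < R)
    (h1 : (K1:ℝ) * (C - A + 1) = R * (A + 2 - C))
    (h2 : (K2:ℝ) * (C + A - 1) = R * (A + 2 + C)) :
    C ∈ QQ ∧ (K2:ℝ) * A = R * (C + 1) := by
  have w1 : C - A + 1 ≠ 0 := by intro h; linarith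
  have w2 : C + A - 1 ≠ 0 := by intro h; linarith
  have f1 : (K2:ℝ) * A = R * (C + 1) := by
    apply mul_right_cancel₀ w2
    linear_combination A * h2 - R * hC2
  have f2 : (K2:ℝ) * (C - 1) = R * (A + 1) := by
    apply mul_right_cancel₀ hA0.ne'
    linear_combination (C - 1) * f1 + R * hC2
  have f3 : (K1:ℝ) * (C + 1) = R * (A + 1) := by
    apply mul_right_cancel₀ w1
    linear_combination (C + 1) * h1 - R * hC2
  have f4 : C * ((K2:ℝ) - K1) = K1 + K2 := by linear_combination f2 - f3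
  have hne : (K2:ℝ) - K1 ≠ 0 := by
    intro h
    rw [h, mul_zero] at f4
    have h3 : (K1:ℝ) = 0 := by linarith
    rw [h3, zero_mul] at f3
    exact (mul_pos hR0 (by linarith : 0 < A + 1)).ne' f3.symm
  refine ⟨?_, f1⟩
  have : C = (K1 + K2) / ((K2:ℝ) - K1) := by rw [eq_div_iff hne, f4]
  rw [this]
  exact div_mem (add_mem (int_mem _) (int_mem _)) (sub_mem (int_mem _) (int_mem _))

/-- G4 without the rationality of `A`: `C = μ (A - 1)`, `3 R A = k (A - 1)` -/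
theorem G4_alg {A C R : ℝ} {K1 K2 : ℤ} (hA0 : 0 < A) (hA1 : A ≠ 1) (hC1 : 1 < C) (hAC : A < C)
    (hC2 : C ^ 2 = A ^ 2 + A + 1) (hR0 : 0 < R)
    (h1 : (K1:ℝ) * (C - A + 1) = -3 * R * A)
    (h2 : (K2:ℝ) * (C + A - 1) = -3 * R * A) :
    ∃ μ k : ℝ, μ ∈ QQ ∧ k ∈ QQ ∧ C = μ * (A - 1) ∧ 3 * R * A = k * (A - 1) := by
  have f1 : C * ((K1:ℝ) - K2) = (K1 + K2) * (A - 1) := by linear_combination h1 - h2
  have hA1' : A - 1 ≠ 0 := sub_ne_zero.mpr hA1
  have hne : (K1:ℝ) - K2 ≠ 0 := by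
    intro h
    rw [h, mul_zero] at f1
    have h3 : (K1:ℝ) + K2 = 0 := (mul_eq_zero.mp f1.symm).resolve_right hA1'
    have h4 : (K1:ℝ) = 0 := by linarith
    rw [h4, zero_mul] at h1
    have := mul_pos hR0 hA0
    linarith
  refine ⟨(K1 + K2) / (K1 - K2), -(K1 * ((K1 + K2) / (K1 - K2) - 1)), ?_, ?_, ?_, ?_⟩
  · exact div_mem (add_mem (int_mem _) (int_mem _)) (sub_mem (int_mem _) (int_mem _))
  · exact neg_mem (mul_mem (int_mem _) (sub_mem (div_mem (add_mem (int_mem _) (int_mem _))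
      (sub_mem (int_mem _) (int_mem _))) (one_mem _)))
  · field_simp
    linear_combination f1
  · have h5 : C = (K1 + K2) / (K1 - K2) * (A - 1) := by
      field_simp
      linear_combination f1
    have h6 : C - A + 1 = ((K1 + K2) / (K1 - K2) - 1) * (A - 1) := by
      rw [sub_mul, ← h5]; ring
    rw [h6] at h1
    linear_combination h1

/-- the quadratic argument of G4 -/
theorem G4_quad {A C R μ k : ℝ} (hA0 : 0 < A) (hA1 : A ≠ 1) (hC1 : 1 < C)
    (hC2 : C ^ 2 = A ^ 2 + A + 1) (hR0 : 0 < R) (hμ : μ ∈ QQ) (hk : k ∈ QQ)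
    (hCμ : C = μ * (A - 1)) (hRk : 3 * R * A = k * (A - 1)) {x0 x1 x2 y0 y1 y2 : ℕ}
    (hx : R * (2 * A + 1) = x0 * A + x1 + x2 * C)
    (hy : R * (A * (A + 2)) = y0 * A + y1 + y2 * C) : A ∈ QQ := by
  by_contra hirr
  have hA1' : A - 1 ≠ 0 := sub_ne_zero.mpr hA1
  have hq : A ^ 2 * (μ ^ 2 - 1) - A * (2 * μ ^ 2 + 1) + (μ ^ 2 - 1) = 0 := by
    rw [hCμ] at hC2
    linear_combination hC2
  have hμ1 : μ ^ 2 - 1 ≠ 0 := by
    intro h
    have h1 : μ ^ 2 = 1 := by linarith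
    rw [h1] at hq
    nlinarith
  set T := (2 * μ ^ 2 + 1) / (μ ^ 2 - 1) with hT
  have hTQ : T ∈ QQ := div_mem (add_mem (mul_mem two_mem (pow_mem hμ 2)) (one_mem _))
    (sub_mem (pow_mem hμ 2) (one_mem _))
  have hTA : A ^ 2 = T * A - 1 := by
    rw [hT]
    field_simp
    linear_combination hq
  have hT2 : 2 < T := by
    have h1 : 0 < (A - 1) ^ 2 := by positivity
    have h2 : 0 < (T - 2) * A := by linear_combination h1 + hTA
    by_contra hcon
    push Not at hcon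
    nlinarith
  -- first relation
  have g1 : (k * (2 * T - 1) - 3 * (x0 * T + x1 + x2 * μ * (T - 1))) * A
      = 3 * k - 3 * (x0 + x2 * μ) := by
    rw [hCμ] at hx
    linear_combination 3 * A * hx - (2 * A + 1) * hRk + (-(2 * k) + 3 * x0 + 3 * x2 * μ) * hTA
  have g2 : (k * (T + 1) - 3 * (y0 + y2 * μ)) * A = 3 * k + 3 * (y1 - y2 * μ) := by
    rw [hCμ] at hy
    apply mul_right_cancel₀ hA0.ne'
    linear_combination 3 * A * hy - (A * (A + 2)) * hRk - k * A * hTA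
  have m3 := three_mem
  obtain ⟨g3, g4⟩ := irr_coeff hirr
    (sub_mem (mul_mem hk (sub_mem (mul_mem two_mem hTQ) (one_mem _)))
      (mul_mem m3 (add_mem (add_mem (mul_mem (nat_mem _) hTQ) (nat_mem _))
        (mul_mem (mul_mem (nat_mem _) hμ) (sub_mem hTQ (one_mem _))))))
    (sub_mem (mul_mem m3 hk) (mul_mem m3 (add_mem (nat_mem _) (mul_mem (nat_mem _) hμ)))) g1
  obtain ⟨g5, g6⟩ := irr_coeff hirr
    (sub_mem (mul_mem hk (add_mem hTQ (one_mem _)))
      (mul_mem m3 (add_mem (nat_mem _) (mul_mem (nat_mem _) hμ))))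
    (add_mem (mul_mem m3 hk) (mul_mem m3 (sub_mem (nat_mem _) (mul_mem (nat_mem _) hμ)))) g2
  have hx0 : (0:ℝ) ≤ x0 := Nat.cast_nonneg _
  have hx1 : (0:ℝ) ≤ x1 := Nat.cast_nonneg _
  have hy0 : (0:ℝ) ≤ y0 := Nat.cast_nonneg _
  have hy1 : (0:ℝ) ≤ y1 := Nat.cast_nonneg _
  have hRA : 0 < k * (A - 1) := by rw [← hRk]; positivity
  rcases lt_or_gt_of_ne hA1 with hlt | hgt
  · -- `A < 1`, `k < 0`
    have hk0 : k < 0 := by
      by_contra hcon
      push Not at hcon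
      nlinarith
    -- `-k = y1 - y2 μ`, `k (T+1) = 3 (y0 + y2 μ)`
    have e1 : k = - y1 + y2 * μ := by linarith
    have e2 : k * (T + 1) = 3 * (y0 + y2 * μ) := by linarith
    have e3 : 3 * k ≤ k * (T + 1) := by rw [e2, e1]; linarith
    have e4 := mul_pos (neg_pos.mpr hk0) (sub_pos.mpr hT2)
    linarith
  · have hk0 : 0 < k := by
      by_contra hcon
      push Not at hcon
      nlinarith
    have e1 : k = x0 + x2 * μ := by linarith
    have e2 : k * (T + 1) = 3 * (x2 * μ - x1) := by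
      linear_combination (-1) * g3 + T * g4
    have e3 : k * (T + 1) ≤ 3 * k := by rw [e2]; linarith
    have e4 := mul_pos hk0 (sub_pos.mpr hT2)
    linarith

end Pool.Agent.Helper64.Sq
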